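import Pool.Agent.H.MP_602efc_co.Ent.Fs
import Pool.Agent.H.MP_602efc_co.As.Fi3

/-!
# The general upper bound and the order of magnitude
-/

open Finset CovAs CodimTwo

namespace Pool.Agent.H.MP_602efc_co.Ent

/-- The inequality for two families, applied to one family twice. -/
theorem one_family {n d k : ℕ} (f : Fin n → Fin d → Option Bool)
    (hf : ∀ u v, u ≠ v → 1 ≤ conf (f u) (f v) ∧ conf (f u) (f v) ≤ k) (F : Finset (Fin n))
    {q : ℝ} (hq : 0 < q) (hq1 : q ≤ 1) :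
    (∑ i ∈ F, ((1 + q) ^ 2 / 2) ^ st univ (f i)) ^ 2 * q ^ k ≤ (1 + q) ^ (2 * d) := by
  have h1 := two_families q hq hq1 f f (univ : Finset (Fin d)) F F (fun _ => 1) (fun _ => q ^ k)
    (fun _ _ => zero_le_one) (fun _ _ => by positivity)
    (fun i _ i' _ hne => by
      rw [← conf_eq_cf]
      exact (hf i i' hne).1)
    (fun i _ i' _ hne => by
      rw [← conf_eq_cf]
      exact (hf i i' hne).1)
    (fun i _ j _ => by
      rw [one_mul, ← conf_eq_cf]
      apply pow_le_pow_of_le_one hq.le hq1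
      by_cases h : i = j
      · rw [h, conf_self]
        exact Nat.zero_le _
      · exact (hf i j h).2)
  rw [card_univ, Fintype.card_fin] at h1
  refine le_trans (le_of_eq ?_) h1
  simp only [mul_one]
  rw [← sum_mul]
  ring

/-- **The general upper bound.** -/
theorem general {k d n : ℕ} (h : HasW k d n) {q : ℝ} (hq : √2 - 1 ≤ q) (hq1 : q ≤ 1) :
    (n : ℝ) ^ 2 * q ^ k ≤ (1 + q) ^ (2 * d) := by
  obtain ⟨f, hf⟩ := h
  have h2 : (1 : ℝ) < √2 := by
    rw [Real.lt_sqrt (by norm_num)]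
    norm_num
  have h3 : √2 * √2 = 2 := Real.mul_self_sqrt (by norm_num)
  have hq0 : 0 < q := by linarith
  refine le_trans ?_ (one_family f hf univ hq0 hq1)
  refine mul_le_mul_of_nonneg_right ?_ (by positivity)
  refine pow_le_pow_left₀ (Nat.cast_nonneg n) ?_ 2
  have hρ : 1 ≤ (1 + q) ^ 2 / 2 := by nlinarith
  calc (n : ℝ) = ∑ i : Fin n, (1 : ℝ) := by simp
    _ ≤ _ := sum_le_sum fun i _ => one_le_pow₀ hρ

theorem Asm_st_le {d : ℕ} (w : Fin d → Option Bool) : st univ w ≤ d := by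
  unfold st
  calc ∑ i : Fin d, (if w i = none then 1 else 0) ≤ ∑ i : Fin d, 1 :=
        sum_le_sum fun i _ => by split_ifs <;> norm_num
    _ = d := by simp

/-- Summation over the number of stars. -/
theorem Asm_count {n d : ℕ} (f : Fin n → Fin d → Option Bool) {Z x : ℝ} (hZ : 0 ≤ Z)
    (hx0 : 0 ≤ x) (hx1 : x < 1)
    (hb : ∀ s ≤ d, ∀ F : Finset (Fin n), (∀ i ∈ F, st univ (f i) = s) →
      (#F : ℝ) ≤ Z * (((s : ℝ) + 1) * x ^ s)) : (n : ℝ) ≤ Z * (1 / (1 - x) ^ 2) := by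
  have h1 : n = ∑ s ∈ range (d + 1), #{i : Fin n | st univ (f i) = s} := by
    rw [← card_eq_sum_card_fiberwise (f := fun i => st univ (f i)) (s := univ)
      (t := range (d + 1)), card_univ, Fintype.card_fin]
    intro i _
    rw [coe_range, Set.mem_Iio]
    exact Nat.lt_succ_of_le (Asm_st_le (f i))
  calc (n : ℝ) = ∑ s ∈ range (d + 1), (#{i : Fin n | st univ (f i) = s} : ℝ) := by
        exact_mod_cast h1
    _ ≤ ∑ s ∈ range (d + 1), Z * (((s : ℝ) + 1) * x ^ s) := by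
        refine sum_le_sum fun s hs => hb s (Nat.lt_succ_iff.1 (mem_range.1 hs)) _ fun i hi => ?_
        exact (mem_filter.1 hi).2
    _ = Z * ∑ s ∈ range (d + 1), ((s : ℝ) + 1) * x ^ s := by rw [mul_sum]
    _ ≤ Z * (1 / (1 - x) ^ 2) :=
        mul_le_mul_of_nonneg_left (sum_succ_geom hx0 hx1 (d + 1)) hZ

/-- The binomial coefficient is at most the number of Kleitman. -/
theorem Asm_choose_le {d k : ℕ} (hk : k < d) : d.choose (k / 2) ≤ gK d k := by
  rcases Nat.even_or_odd' k with ⟨r, rfl | rfl⟩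
  · rw [gK_even, show 2 * r / 2 = r by omega, bs_succ]
    exact Nat.le_add_left _ _
  · rw [gK_odd, show (2 * r + 1) / 2 = r by omega, bs_succ]
    obtain ⟨e, rfl⟩ : ∃ e, d = e + 1 := ⟨d - 1, by omega⟩
    rw [Nat.add_sub_cancel]
    have h1 : (e + 1).choose r ≤ 2 * e.choose r := by
      rcases Nat.eq_zero_or_pos r with rfl | hr
      · simp
      · obtain ⟨r', rfl⟩ : ∃ r', r = r' + 1 := ⟨r - 1, by omega⟩
        rw [Nat.choose_succ_succ']
        have h2 : e.choose r' ≤ e.choose (r' + 1) := Nat.choose_le_succ_of_lt_half_left (by omega)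
        omega
    omega

/-- The numerical facts. With `x = r / d`: `1 + q = 1 / (1 - x)`. -/
theorem Asm_num {ε q D r : ℝ} (hε : 0 < ε) (hε1 : ε ≤ 1) (hD : 0 < D) (hr : (1 - √2 / 2 + ε / 4) * D ≤ r)
    (hr2 : r ≤ 35 / 100 * D) (hq : q = r / (D - r)) :
    2 / 5 ≤ q ∧ q ≤ 3 / 5 ∧ 1 + ε / 2 ≤ (1 + q) ^ 2 / 2 := by
  have hDr : 0 < D - r := by linarith
  have hw1 : (1.41 : ℝ) < √2 := by
    rw [Real.lt_sqrt (by norm_num)]
    norm_num
  have hw2 : √2 < 1.42 := by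
    rw [Real.sqrt_lt' (by norm_num)]
    norm_num
  have hw : √2 * √2 = 2 := Real.mul_self_sqrt (by norm_num)
  refine ⟨?_, ?_, ?_⟩
  · rw [hq, le_div_iff₀ hDr]
    nlinarith
  · rw [hq, div_le_iff₀ hDr]
    nlinarith
  · have h1 : 1 + q = D / (D - r) := by
      rw [hq]
      field_simp
      ring
    have h2 : D - r ≤ (√2 / 2 - ε / 4) * D := by nlinarith
    have h3 : 0 < √2 / 2 - ε / 4 := by linarith
    have h4 : (D - r) ^ 2 ≤ ((√2 / 2 - ε / 4) * D) ^ 2 := pow_le_pow_left₀ hDr.le h2 2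
    rw [h1, div_pow, div_div, le_div_iff₀ (by positivity)]
    have h5 : (1 + ε / 2) * (2 * (√2 / 2 - ε / 4) ^ 2) ≤ 1 := by
      have e : (1 + ε / 2) * (2 * (√2 / 2 - ε / 4) ^ 2) =
          (1 + ε / 2) * (√2 * √2 / 2 - ε * √2 / 2 + ε ^ 2 / 8) := by ring
      rw [e, hw]
      nlinarith [mul_pos hε hε, mul_pos (mul_pos hε hε) hε]
    calc (1 + ε / 2) * ((D - r) ^ 2 * 2) ≤ (1 + ε / 2) * (((√2 / 2 - ε / 4) * D) ^ 2 * 2) := by
          gcongr
      _ = (1 + ε / 2) * (2 * (√2 / 2 - ε / 4) ^ 2) * D ^ 2 := by ring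
      _ ≤ 1 * D ^ 2 := mul_le_mul_of_nonneg_right h5 (by positivity)
      _ = D ^ 2 := one_mul _

/-- The main case: `(2 - √2 + ε) d ≤ k ≤ 7 d / 10`, `d` large. -/
theorem Asm_main (ε : ℝ) (hε : 0 < ε) (hε1 : ε ≤ 1) : ∃ C : ℝ, 0 < C ∧ ∀ k d n : ℕ, k < d →
    (2 - √2 + ε) * d ≤ k → 10 * k ≤ 7 * d → 32 / ε ≤ d → HasW k d n →
    (n : ℝ) ≤ C * gK d k := by
  obtain ⟨B, hB, hfs⟩ := fs_bound (2 / 5) (3 / 5) (by norm_num) (by norm_num)
  obtain ⟨c, hc, hlow⟩ := Stir_low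
  set τ : ℝ := ε / 8 with hτ
  set x : ℝ := 1 / (1 + ε / 4) with hx
  have hx0 : 0 < x := by positivity
  have hx1 : x < 1 := by
    rw [hx, div_lt_one (by positivity)]
    linarith
  set y : ℝ := (1 + ε / 4) / (1 + ε / 2) with hy
  have hy0 : 0 < y := by positivity
  have hy1 : y < 1 := by
    rw [hy, div_lt_one (by positivity)]
    linarith
  obtain ⟨C₂, hC₂, hsg⟩ := sqrt_geom hy0.le hy1
  set Z₀ : ℝ := √(4 * B / τ) + √2 * C₂ with hZ₀
  have hZ₀0 : 0 < Z₀ := by positivity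
  refine ⟨Z₀ * (1 / (1 - x) ^ 2) * (c * 2), by have := sub_pos.2 hx1; positivity, ?_⟩
  intro k d n hkd hk1 hk2 hd hW
  obtain ⟨f, hf⟩ := hW
  have hd0 : (0 : ℝ) < d := lt_of_lt_of_le (by positivity) hd
  have hw1 : (1.41 : ℝ) < √2 := by
    rw [Real.lt_sqrt (by norm_num)]
    norm_num
  have hw2 : √2 < 1.42 := by
    rw [Real.sqrt_lt' (by norm_num)]
    norm_num
  set r : ℕ := k / 2 with hr
  have hr1 : (k : ℝ) ≤ 2 * r + 1 := by
    have : k ≤ 2 * r + 1 := by omega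
    exact_mod_cast this
  have hr2 : 2 * (r : ℝ) ≤ k := by
    have : 2 * r ≤ k := by omega
    exact_mod_cast this
  have hk2' : 10 * (k : ℝ) ≤ 7 * d := by exact_mod_cast hk2
  have hdε : 32 ≤ ε * d := by
    rw [div_le_iff₀ hε] at hd
    linarith
  set q : ℝ := (r : ℝ) / ((d : ℝ) - r) with hq
  obtain ⟨hq0, hq1, hρ⟩ := Asm_num hε hε1 hd0
    (show (1 - √2 / 2 + ε / 4) * (d : ℝ) ≤ r by nlinarith)
    (show (r : ℝ) ≤ 35 / 100 * d by linarith) hq
  have hqpos : 0 < q := by linarith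
  have hrpos : 1 ≤ r := by
    have h5 : (0 : ℝ) < r := by nlinarith
    have h6 : 0 < r := by exact_mod_cast h5
    omega
  have hrd : r < d := by omega
  set ρ : ℝ := (1 + q) ^ 2 / 2 with hρd
  have hρ0 : 0 < ρ := by positivity
  -- the reference quantity
  set Y : ℝ := (1 + q) ^ d / √(q ^ k) with hY
  have hqk : 0 < q ^ k := by positivity
  have hY0 : 0 < Y := by positivity
  have hY2 : Y ^ 2 = (1 + q) ^ (2 * d) / q ^ k := by
    rw [hY, div_pow, Real.sq_sqrt hqk.le, ← pow_mul, mul_comm d 2]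
  have hsd : 0 < √(d : ℝ) := Real.sqrt_pos.2 hd0
  -- the bound for words with `s` stars
  have hb : ∀ s ≤ d, ∀ F : Finset (Fin n), (∀ i ∈ F, st univ (f i) = s) →
      (#F : ℝ) ≤ Z₀ * (Y / √d) * (((s : ℝ) + 1) * x ^ s) := by
    intro s hs F hF
    have hs0 : (0 : ℝ) ≤ s := Nat.cast_nonneg s
    have hxs : 0 < x ^ s := by positivity
    by_cases hsd2 : 2 * s ≤ d
    · -- few stars
      have hsd3 : 2 * (s : ℝ) ≤ d := by exact_mod_cast hsd2
      set m : ℕ := ⌊τ * d / 2⌋₊ with hm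
      have hτd : 4 ≤ τ * d := by rw [hτ]; linarith
      have hm1 : (m : ℝ) ≤ τ * d / 2 := Nat.floor_le (by positivity)
      have hm2 : τ * d / 2 < (m : ℝ) + 1 := Nat.lt_floor_add_one _
      have hm3 : τ * d / 4 ≤ m := by linarith
      have hmpos : (0 : ℝ) < m := by linarith
      have hm4 : 1 ≤ m := by
        have : 0 < m := by exact_mod_cast hmpos
        omega
      have h1 := hfs q hq0 hq1 τ (by positivity) (by rw [hτ]; linarith) n d k m s f hf hs hm4
        (by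
          have : τ * (s : ℝ) ≤ τ * (d / 2) := mul_le_mul_of_nonneg_left (by linarith) (by positivity)
          linarith) F hF
      have h2 : ((1 - τ) ^ s * (#F : ℝ) * ρ ^ s) ^ 2 ≤ (((s : ℝ) + 1) * (√(4 * B / τ) * (Y / √d))) ^ 2 := by
        have e1 : (((s : ℝ) + 1) * (√(4 * B / τ) * (Y / √d))) ^ 2 =
            ((s : ℝ) + 1) ^ 2 * (4 * B / τ * (((1 + q) ^ (2 * d) / q ^ k) / d)) := by
          rw [mul_pow, mul_pow, div_pow, Real.sq_sqrt (by positivity), Real.sq_sqrt hd0.le, hY2]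
        rw [e1]
        have e2 : ((1 - τ) ^ s * (#F : ℝ) * ρ ^ s) ^ 2 ≤
            ((s : ℝ) + 1) ^ 2 * (B * ((1 + q) ^ (2 * d) / m)) / q ^ k := by
          rw [le_div_iff₀ hqk]
          exact h1
        refine e2.trans ?_
        have e3 : ((s : ℝ) + 1) ^ 2 * (B * ((1 + q) ^ (2 * d) / m)) / q ^ k =
            ((s : ℝ) + 1) ^ 2 * (B * (1 + q) ^ (2 * d) / q ^ k * (1 / m)) := by
          field_simp
        have e4 : ((s : ℝ) + 1) ^ 2 * (4 * B / τ * (((1 + q) ^ (2 * d) / q ^ k) / d)) =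
            ((s : ℝ) + 1) ^ 2 * (B * (1 + q) ^ (2 * d) / q ^ k * (4 / (τ * d))) := by
          field_simp
        rw [e3, e4]
        have e5 : 1 / (m : ℝ) ≤ 4 / (τ * d) := by
          rw [div_le_div_iff₀ hmpos (by positivity)]
          linarith
        gcongr
      have h3 : (1 - τ) ^ s * (#F : ℝ) * ρ ^ s ≤ ((s : ℝ) + 1) * (√(4 * B / τ) * (Y / √d)) :=
        le_of_sq_le_sq h2 (by positivity)
      have h4 : 1 ≤ (1 - τ) * ρ * x := by
        have h5 : (1 - τ) * (1 + ε / 2) ≤ (1 - τ) * ρ :=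
          mul_le_mul_of_nonneg_left hρ (by rw [hτ]; linarith)
        have h6 : 1 + ε / 4 ≤ (1 - τ) * (1 + ε / 2) := by rw [hτ]; nlinarith
        have h7 : 1 + ε / 4 ≤ (1 - τ) * ρ := h6.trans h5
        have h8 : (1 + ε / 4) * x = 1 := by rw [hx]; field_simp
        calc 1 = (1 + ε / 4) * x := h8.symm
          _ ≤ (1 - τ) * ρ * x := mul_le_mul_of_nonneg_right h7 hx0.le
      have h5 : (1 : ℝ) ≤ ((1 - τ) * ρ * x) ^ s := one_le_pow₀ h4
      calc (#F : ℝ) = #F * 1 := (mul_one _).symm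
        _ ≤ #F * ((1 - τ) * ρ * x) ^ s := mul_le_mul_of_nonneg_left h5 (Nat.cast_nonneg _)
        _ = ((1 - τ) ^ s * (#F : ℝ) * ρ ^ s) * x ^ s := by rw [mul_pow, mul_pow]; ring
        _ ≤ (((s : ℝ) + 1) * (√(4 * B / τ) * (Y / √d))) * x ^ s :=
            mul_le_mul_of_nonneg_right h3 hxs.le
        _ = √(4 * B / τ) * (Y / √d) * (((s : ℝ) + 1) * x ^ s) := by ring
        _ ≤ Z₀ * (Y / √d) * (((s : ℝ) + 1) * x ^ s) := by
            have : √(4 * B / τ) ≤ Z₀ := by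
              rw [hZ₀]
              have : 0 ≤ √2 * C₂ := by positivity
              linarith
            gcongr
    · -- many stars
      have hsd3 : (d : ℝ) ≤ 2 * s := by
        have : d ≤ 2 * s := by omega
        exact_mod_cast this
      have h1 := one_family f hf F hqpos (by linarith)
      have h2 : ∑ i ∈ F, ρ ^ st univ (f i) = #F * ρ ^ s := by
        rw [sum_congr rfl fun i hi => by rw [hF i hi], sum_const, nsmul_eq_mul]
      rw [h2] at h1
      have h3 : ((#F : ℝ) * ρ ^ s) ^ 2 ≤ Y ^ 2 := by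
        rw [hY2, le_div_iff₀ hqk]
        exact h1
      have h4 : (#F : ℝ) * ρ ^ s ≤ Y := le_of_sq_le_sq h3 hY0.le
      -- `ρ⁻¹ ≤ x * y`
      have h5 : 1 ≤ ρ * (x * y) := by
        have h6 : (1 + ε / 2) * (x * y) = 1 := by rw [hx, hy]; field_simp
        calc 1 = (1 + ε / 2) * (x * y) := h6.symm
          _ ≤ ρ * (x * y) := mul_le_mul_of_nonneg_right hρ (by positivity)
      have h6 : (1 : ℝ) ≤ (ρ * (x * y)) ^ s := one_le_pow₀ h5
      have h7 : 1 ≤ √2 * √s / √d := by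
        rw [le_div_iff₀ hsd, one_mul, ← Real.sqrt_mul (by norm_num)]
        exact Real.sqrt_le_sqrt hsd3
      calc (#F : ℝ) = #F * 1 := (mul_one _).symm
        _ ≤ #F * (ρ * (x * y)) ^ s := mul_le_mul_of_nonneg_left h6 (Nat.cast_nonneg _)
        _ = (#F * ρ ^ s) * (x ^ s * y ^ s) := by rw [mul_pow, mul_pow]; ring
        _ ≤ Y * (x ^ s * y ^ s) := mul_le_mul_of_nonneg_right h4 (by positivity)
        _ ≤ Y * (x ^ s * y ^ s) * (√2 * √s / √d) := by
            apply le_mul_of_one_le_right (by positivity) h7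
        _ = (√2 * (√s * y ^ s)) * (Y / √d) * x ^ s := by ring
        _ ≤ (√2 * C₂) * (Y / √d) * x ^ s := by
            have := hsg s
            gcongr
        _ ≤ Z₀ * (Y / √d) * (((s : ℝ) + 1) * x ^ s) := by
            have h8 : √2 * C₂ ≤ Z₀ := by
              rw [hZ₀]
              have : 0 ≤ √(4 * B / τ) := Real.sqrt_nonneg _
              linarith
            have h9 : x ^ s ≤ ((s : ℝ) + 1) * x ^ s := le_mul_of_one_le_left hxs.le (by linarith)
            gcongr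
  have h1 := Asm_count f (Z := Z₀ * (Y / √d)) (by positivity) hx0.le hx1 hb
  -- the reference quantity and the binomial coefficient
  have h2 : Y / √d ≤ c * 2 * (d.choose r : ℝ) := by
    have h3 := hlow d r hrpos hrd
    have h4 : q ^ r * (1 / 2) ≤ √(q ^ k) := by
      apply Real.le_sqrt_of_sq_le
      calc (q ^ r * (1 / 2)) ^ 2 = q ^ (2 * r) * (1 / 4) := by ring
        _ ≤ q ^ (2 * r) * q := by
            apply mul_le_mul_of_nonneg_left (by linarith) (by positivity)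
        _ = q ^ (2 * r + 1) := by ring
        _ ≤ q ^ k := pow_le_pow_of_le_one hqpos.le (by linarith) (by omega)
    have h5 : 0 < q ^ r * (1 / 2) := by positivity
    rw [hY, div_div, div_le_iff₀ (by positivity)]
    calc (1 + q) ^ d ≤ c * √d * (q ^ r * (d.choose r : ℝ)) := h3
      _ = c * 2 * (d.choose r : ℝ) * ((q ^ r * (1 / 2)) * √d) := by ring
      _ ≤ c * 2 * (d.choose r : ℝ) * (√(q ^ k) * √d) := by gcongr
  have h6 : (d.choose r : ℝ) ≤ gK d k := by exact_mod_cast Asm_choose_le hkd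
  have hx2 : 0 < 1 / (1 - x) ^ 2 := by have := sub_pos.2 hx1; positivity
  calc (n : ℝ) ≤ Z₀ * (Y / √d) * (1 / (1 - x) ^ 2) := h1
    _ ≤ Z₀ * (c * 2 * (gK d k : ℝ)) * (1 / (1 - x) ^ 2) := by
        have h7 : Y / √d ≤ c * 2 * (gK d k : ℝ) := h2.trans (by gcongr)
        gcongr
    _ = Z₀ * (1 / (1 - x) ^ 2) * (c * 2) * gK d k := by ring

/-- **The order of magnitude.** -/
theorem theta (ε : ℝ) (hε : 0 < ε) : ∃ C : ℝ, ∀ k d : ℕ, k < d → (2 - √2 + ε) * d ≤ k →
    (gK d k : ℝ) ≤ mx k d ∧ (mx k d : ℝ) ≤ C * gK d k := by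
  obtain ⟨C₁, hC₁, hmain⟩ := Asm_main (min ε 1) (by positivity) (min_le_right _ _)
  set ε' : ℝ := min ε 1 with hε'
  have hε'0 : 0 < ε' := by positivity
  refine ⟨15 + C₁ + 2 ^ ⌈32 / ε'⌉₊, fun k d hkd hk => ⟨by exact_mod_cast mx_ball hkd, ?_⟩⟩
  have hg0 : (0 : ℝ) ≤ gK d k := Nat.cast_nonneg _
  have hg1 : (1 : ℝ) ≤ gK d k := by
    have h1 := Asm_choose_le hkd
    have h2 : 0 < d.choose (k / 2) := Nat.choose_pos (by omega)
    have h3 : 1 ≤ gK d k := by omega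
    exact_mod_cast h3
  have hP : (0 : ℝ) ≤ 2 ^ ⌈32 / ε'⌉₊ := by positivity
  have hW := (mx_greatest k d).1
  by_cases hk2 : 10 * k ≤ 7 * d
  · by_cases hd : 32 / ε' ≤ d
    · have h1 := hmain k d (mx k d) hkd (le_trans (by
        have : ε' ≤ ε := min_le_left _ _
        gcongr) hk) hk2 hd hW
      refine h1.trans (mul_le_mul_of_nonneg_right ?_ hg0)
      linarith
    · push Not at hd
      have h1 : (mx k d : ℝ) ≤ 2 ^ d := by exact_mod_cast le_two_pow hW
      have h2 : d ≤ ⌈32 / ε'⌉₊ := by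
        have h3 : (d : ℝ) ≤ ⌈32 / ε'⌉₊ := hd.le.trans (Nat.le_ceil _)
        exact_mod_cast h3
      have h3 : (2 : ℝ) ^ d ≤ 2 ^ ⌈32 / ε'⌉₊ := pow_le_pow_right₀ (by norm_num) h2
      calc (mx k d : ℝ) ≤ 2 ^ ⌈32 / ε'⌉₊ := h1.trans h3
        _ = 2 ^ ⌈32 / ε'⌉₊ * 1 := (mul_one _).symm
        _ ≤ 2 ^ ⌈32 / ε'⌉₊ * (gK d k : ℝ) := mul_le_mul_of_nonneg_left hg1 hP
        _ ≤ _ := mul_le_mul_of_nonneg_right (by linarith) hg0
  · push Not at hk2
    have h1 := (part3 hkd (by omega)).2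
    refine h1.trans (mul_le_mul_of_nonneg_right ?_ hg0)
    have hk3 : 7 * (d : ℝ) < 10 * k := by exact_mod_cast hk2
    have hd0 : (0 : ℝ) ≤ d := Nat.cast_nonneg _
    have h2 : (2 * (d : ℝ) - k) / (3 * (k : ℝ) + 2 - 2 * d) ≤ 13 := by
      rw [div_le_iff₀ (by linarith)]
      linarith
    have h3 : (1 : ℝ) / 2 ^ (d - k) ≤ 1 := by
      rw [div_le_one (by positivity)]
      exact one_le_pow₀ (by norm_num)
    linarith

end Pool.Agent.H.MP_602efc_co.Ent
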