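import Pool.Agent.H.MP_602efc_co.Ent.Stir
import Pool.Agent.H.MP_602efc_co.As.Kl

/-!
# Upper bounds for the numbers of Kleitman, and two families at small mutual distance
-/

open Finset CovAs CodimTwo

namespace Pool.Agent.H.MP_602efc_co.Ent

theorem Ball_geom (q : ℝ) (h0 : 0 ≤ q) (h1 : q < 1) (r : ℕ) :
    ∑ i ∈ range (r + 1), q ^ (r - i) ≤ 1 / (1 - q) := by
  have h2 : ∑ i ∈ range (r + 1), q ^ (r - i) = ∑ i ∈ range (r + 1), q ^ i := by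
    rw [← Finset.sum_range_reflect]
    refine Finset.sum_congr rfl fun i hi => ?_
    congr 1
    have := Finset.mem_range.mp hi
    omega
  rw [h2, le_div_iff₀ (by linarith)]
  have h3 := geom_sum_mul_neg q (r + 1)
  rw [h3]
  have : 0 ≤ q ^ (r + 1) := by positivity
  linarith

theorem Ball_bs (B q : ℝ) (h0 : 0 < q) (h1 : q < 1) (m : ℕ) (Y : ℝ) (hY : 0 ≤ B * Y)
    (h : ∀ i : ℕ, (m.choose i : ℝ) * q ^ i ≤ B * Y) (r : ℕ) :
    (bs m (r + 1) : ℝ) * q ^ r ≤ B * Y * (1 / (1 - q)) := by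
  have e1 : (bs m (r + 1) : ℝ) * q ^ r =
      ∑ i ∈ range (r + 1), ((m.choose i : ℝ) * q ^ i) * q ^ (r - i) := by
    unfold bs
    push_cast
    rw [Finset.sum_mul]
    refine Finset.sum_congr rfl fun i hi => ?_
    have hi' := Finset.mem_range.mp hi
    rw [mul_assoc, ← pow_add]
    congr 2
    omega
  rw [e1]
  calc ∑ i ∈ range (r + 1), ((m.choose i : ℝ) * q ^ i) * q ^ (r - i)
      ≤ ∑ i ∈ range (r + 1), (B * Y) * q ^ (r - i) := by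
        refine Finset.sum_le_sum fun i _ => ?_
        exact mul_le_mul_of_nonneg_right (h i) (by positivity)
    _ = (B * Y) * ∑ i ∈ range (r + 1), q ^ (r - i) := by rw [Finset.mul_sum]
    _ ≤ _ := mul_le_mul_of_nonneg_left (Ball_geom q h0.le h1 r) hY

theorem Ball_bs_left (m r : ℕ) : bs (m - 1) r ≤ bs m r := by
  unfold bs
  exact Finset.sum_le_sum fun i _ => Nat.choose_le_choose i (Nat.sub_le m 1)

/-- `gK m a = bs m (r + 1)` for `a = 2 r` and `gK m a = 2 * bs (m - 1) (r + 1) ≤ 2 * bs m (r + 1)` for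
`a = 2 r + 1`, and `q ^ r * bs m (r + 1) = ∑ i ≤ r, m.choose i * q ^ i * q ^ (r - i)
≤ B * ((1 + q) ^ m / √m) / (1 - q)` by `Stir_up`. -/
theorem gK_up (q₀ q₁ : ℝ) (h₀ : 0 < q₀) (h₁ : q₁ < 1) : ∃ B : ℝ, 0 < B ∧ ∀ q : ℝ, q₀ ≤ q → q ≤ q₁ →
    ∀ m a : ℕ, 1 ≤ m → (gK m a : ℝ) ^ 2 * q ^ a ≤ B * ((1 + q) ^ (2 * m) / m) := by
  obtain ⟨B₁, hB₁, hS⟩ := Stir_up q₀ h₀
  have h1q : 0 < 1 - q₁ := by linarith
  refine ⟨4 * (B₁ * (1 / (1 - q₁))) ^ 2, by positivity, fun q hq₀ hq₁ m a hm => ?_⟩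
  have hq : 0 < q := lt_of_lt_of_le h₀ hq₀
  have hq1 : q < 1 := lt_of_le_of_lt hq₁ h₁
  have hm0 : (0 : ℝ) < m := by exact_mod_cast hm
  have hY : 0 < (1 + q) ^ m / √(m : ℝ) := by
    have := Real.sqrt_pos.mpr hm0
    positivity
  have hkey : ∀ r : ℕ, (bs m (r + 1) : ℝ) * q ^ r ≤
      B₁ * (1 / (1 - q₁)) * ((1 + q) ^ m / √(m : ℝ)) := by
    intro r
    refine (Ball_bs B₁ q hq hq1 m _ (by positivity) (fun i => hS q hq₀ hq1.le m i hm) r).trans ?_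
    have h3 : 1 / (1 - q) ≤ 1 / (1 - q₁) := one_div_le_one_div_of_le h1q (by linarith)
    calc B₁ * ((1 + q) ^ m / √(m : ℝ)) * (1 / (1 - q))
        ≤ B₁ * ((1 + q) ^ m / √(m : ℝ)) * (1 / (1 - q₁)) := by gcongr
      _ = _ := by ring
  have hsq : ∀ r : ℕ, (bs m (r + 1) : ℝ) ^ 2 * q ^ (2 * r) ≤
      (B₁ * (1 / (1 - q₁))) ^ 2 * ((1 + q) ^ (2 * m) / m) := by
    intro r
    have h2 : (bs m (r + 1) : ℝ) ^ 2 * q ^ (2 * r) = ((bs m (r + 1) : ℝ) * q ^ r) ^ 2 := by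
      rw [mul_pow, ← pow_mul, mul_comm r 2]
    have h3 : (B₁ * (1 / (1 - q₁))) ^ 2 * ((1 + q) ^ (2 * m) / m) =
        (B₁ * (1 / (1 - q₁)) * ((1 + q) ^ m / √(m : ℝ))) ^ 2 := by
      rw [mul_pow _ ((1 + q) ^ m / √(m : ℝ)), div_pow, Real.sq_sqrt hm0.le, ← pow_mul,
        mul_comm m 2]
    rw [h2, h3]
    exact pow_le_pow_left₀ (by positivity) (hkey r) 2
  have hpos : 0 ≤ (B₁ * (1 / (1 - q₁))) ^ 2 * ((1 + q) ^ (2 * m) / m) := by positivity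
  rcases Nat.even_or_odd' a with ⟨r, rfl | rfl⟩
  · rw [gK_even]
    refine (hsq r).trans ?_
    linarith
  · rw [gK_odd]
    have h4 : ((2 * bs (m - 1) (r + 1) : ℕ) : ℝ) ≤ 2 * (bs m (r + 1) : ℝ) := by
      have := Ball_bs_left m (r + 1)
      push_cast
      have h5 : ((bs (m - 1) (r + 1) : ℕ) : ℝ) ≤ (bs m (r + 1) : ℝ) := by exact_mod_cast this
      linarith
    have h6 : ((2 * bs (m - 1) (r + 1) : ℕ) : ℝ) ^ 2 * q ^ (2 * r + 1) ≤
        (2 * (bs m (r + 1) : ℝ)) ^ 2 * q ^ (2 * r) := by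
      have h7 : q ^ (2 * r + 1) ≤ q ^ (2 * r) := by
        rw [pow_succ]
        exact mul_le_of_le_one_right (by positivity) hq1.le
      gcongr
    refine h6.trans ?_
    have h8 := hsq r
    calc (2 * (bs m (r + 1) : ℝ)) ^ 2 * q ^ (2 * r)
        = 4 * ((bs m (r + 1) : ℝ) ^ 2 * q ^ (2 * r)) := by ring
      _ ≤ 4 * ((B₁ * (1 / (1 - q₁))) ^ 2 * ((1 + q) ^ (2 * m) / m)) := by gcongr
      _ = _ := by ring

/-- **Two families at small mutual distance.** If `gK m (2 D + 1) ≤ #𝒜` then by `nb_iter` with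
`s = m - 1 - D` the neighbourhood `nb u 𝒜 s` has `gK m (2 m - 1) = 2 ^ m` elements; but the complement
of a member of `ℬ` is not in it (`hd_compl`, see the proof of `kleitman` in `As/Kl.lean`). So there is
`a ≤ 2 D` with `gK m a ≤ #𝒜 < gK m (a + 1)` (`exists_piece` or `Nat.find`; `gK m 0 = 1`). By `nb_iter`
`gK m (a + 2 (m - 1 - D)) ≤ #(nb u 𝒜 (m - 1 - D))`, the complements of the members of `ℬ` are outside,
and `gK m (a + 2 (m - 1 - D)) + gK m (2 D - a) = 2 ^ m` by `gK_sym`. -/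
theorem cross {α : Type*} [DecidableEq α] {m D : ℕ} (hD : D < m) (u : Finset α) (hu : #u = m)
    (𝒜 ℬ : Finset (Finset α)) (hA : ∀ A ∈ 𝒜, A ⊆ u) (hB : ∀ B ∈ ℬ, B ⊆ u) (hA0 : 𝒜.Nonempty)
    (hB0 : ℬ.Nonempty) (h : ∀ A ∈ 𝒜, ∀ B ∈ ℬ, hd A B ≤ D) :
    ∃ a ≤ 2 * D, #𝒜 ≤ gK m (a + 1) ∧ #ℬ ≤ gK m (2 * D - a) := by
  classical
  obtain ⟨n, rfl⟩ : ∃ n, m = n + 1 := ⟨m - 1, by omega⟩
  have hinj : #(ℬ.image (fun B => u \ B)) = #ℬ := by
    apply card_image_of_injOn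
    intro B hB1 B' hB1' he
    simp only at he
    have := congrArg (fun C => u \ C) he
    simp only [Finset.sdiff_sdiff_eq_self (hB B hB1), Finset.sdiff_sdiff_eq_self (hB B' hB1')]
      at this
    exact this
  have hdis : Disjoint (nb u 𝒜 (n - D)) (ℬ.image (fun B => u \ B)) := by
    rw [disjoint_left]
    intro X hX hX'
    obtain ⟨B, hB', rfl⟩ := mem_image.1 hX'
    obtain ⟨-, A, hA', hAB⟩ := mem_filter.1 hX
    have h2 := hd_compl (hA A hA') (hB B hB')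
    have h3 := h A hA' B hB'
    omega
  have hcard := disjoint_card_le (u := u) (𝒜 := nb u 𝒜 (n - D))
    (ℬ := ℬ.image (fun B => u \ B)) (fun B hB => mem_powerset.1 (mem_filter.1 hB).1)
    (by
      intro B hB
      obtain ⟨C, _, rfl⟩ := mem_image.1 hB
      exact sdiff_subset) hdis
  rw [hinj, hu] at hcard
  have hBpos : 0 < #ℬ := card_pos.2 hB0
  have hApos : 0 < #𝒜 := card_pos.2 hA0
  have htop : #𝒜 < gK (n + 1) (2 * D + 1) := by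
    by_contra hcon
    push Not at hcon
    have h1 := nb_iter u hu 𝒜 hA hA0 hcon (n - D)
    have h2 : gK (n + 1) (2 * D + 1 + 2 * (n - D)) = 2 ^ (n + 1) := by
      rw [show 2 * D + 1 + 2 * (n - D) = 2 * n + 1 by omega, gK_odd, Nat.add_sub_cancel, bs_full,
        pow_succ]
      ring
    omega
  have hex : ∃ a, #𝒜 < gK (n + 1) (a + 1) := ⟨2 * D, htop⟩
  refine ⟨Nat.find hex, Nat.find_min' hex htop, (Nat.find_spec hex).le, ?_⟩
  have ha2 : Nat.find hex ≤ 2 * D := Nat.find_min' hex htop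
  have hlow : gK (n + 1) (Nat.find hex) ≤ #𝒜 := by
    rcases Nat.eq_zero_or_pos (Nat.find hex) with h0 | h0
    · rw [h0]
      have : gK (n + 1) 0 = 1 := by
        have := gK_even (n + 1) 0
        rw [Nat.mul_zero] at this
        rw [this, Nat.zero_add, bs_one]
      omega
    · have h1 := Nat.find_min hex (m := Nat.find hex - 1) (by omega)
      rw [show Nat.find hex - 1 + 1 = Nat.find hex by omega] at h1
      omega
  have h1 := nb_iter u hu 𝒜 hA hA0 hlow (n - D)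
  have h3 := gK_sym (d := n + 1) (D := 2 * D - Nat.find hex)
    (D' := Nat.find hex + 2 * (n - D)) (by omega) (by omega)
  omega

theorem Ball_card_le {α : Type*} [DecidableEq α] {m : ℕ} (u : Finset α) (hu : #u = m)
    (𝒜 : Finset (Finset α)) (hA : ∀ A ∈ 𝒜, A ⊆ u) : (#𝒜 : ℝ) ≤ 2 ^ m := by
  have h1 : 𝒜 ⊆ u.powerset := fun A hA' => mem_powerset.2 (hA A hA')
  have h2 := card_le_card h1
  rw [card_powerset, hu] at h2
  exact_mod_cast h2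

theorem Ball_big (q q₁ : ℝ) (hq : 0 < q) (hq₁ : q ≤ q₁) (h₁ : q₁ < 1) (m : ℕ) (hm : 1 ≤ m) :
    (4 * q) ^ m ≤ 4 / (1 - q₁) ^ 2 * ((1 + q) ^ (2 * m) / m) := by
  have hm0 : (0 : ℝ) < m := by exact_mod_cast hm
  have h1q : 0 < 1 - q₁ := by linarith
  have h1q' : 0 < 1 - q := by linarith
  set x : ℝ := 4 * q / (1 + q) ^ 2 with hx
  have hx0 : 0 < x := by positivity
  have hx1 : 1 - x = (1 - q) ^ 2 / (1 + q) ^ 2 := by
    rw [hx]
    field_simp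
    ring
  have hx1' : 0 < 1 - x := by
    rw [hx1]
    positivity
  have h2 : (m : ℝ) * x ^ m ≤ 1 / (1 - x) := by
    have h3 : (m : ℝ) * x ^ m ≤ ∑ i ∈ range m, x ^ i := by
      calc (m : ℝ) * x ^ m = ∑ _i ∈ range m, x ^ m := by
            rw [Finset.sum_const, card_range, nsmul_eq_mul]
        _ ≤ _ := by
            refine Finset.sum_le_sum fun i hi => ?_
            exact pow_le_pow_of_le_one hx0.le (by linarith) (Finset.mem_range.mp hi).le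
    refine h3.trans ?_
    rw [le_div_iff₀ hx1', geom_sum_mul_neg]
    have : 0 ≤ x ^ m := by positivity
    linarith
  have h3 : 1 / (1 - x) ≤ 4 / (1 - q₁) ^ 2 := by
    rw [hx1, one_div_div]
    have h4 : (1 + q) ^ 2 ≤ 4 := by nlinarith
    have h5 : (1 - q₁) ^ 2 ≤ (1 - q) ^ 2 := pow_le_pow_left₀ h1q.le (by linarith) 2
    exact div_le_div₀ (by norm_num) h4 (by positivity) h5
  have h4 : (4 * q) ^ m = (1 + q) ^ (2 * m) * x ^ m := by
    rw [hx, div_pow, ← pow_mul]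
    field_simp
  rw [h4, mul_div_assoc', le_div_iff₀ hm0]
  calc (1 + q) ^ (2 * m) * x ^ m * m = (1 + q) ^ (2 * m) * (m * x ^ m) := by ring
    _ ≤ (1 + q) ^ (2 * m) * (4 / (1 - q₁) ^ 2) := by
        have := h2.trans h3
        gcongr
    _ = _ := by ring

/-- **The product of the sizes.** For `D < m` the square of the left side is at most
`q⁻¹ * (gK m (a + 1) ^ 2 * q ^ (a + 1)) * (gK m (2 D - a) ^ 2 * q ^ (2 D - a))` (`cross`, `gK_up`).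
For `D ≥ m` it is at most `(4 q) ^ m = (1 + q) ^ (2 m) * x ^ m` with `x = 4 q / (1 + q) ^ 2 < 1` and
`m * x ^ m ≤ ∑ i < m, x ^ i ≤ 1 / (1 - x) = (1 + q) ^ 2 / (1 - q) ^ 2`. -/
theorem cross_prod (q₀ q₁ : ℝ) (h₀ : 0 < q₀) (h₁ : q₁ < 1) : ∃ B : ℝ, 0 < B ∧ ∀ q : ℝ, q₀ ≤ q →
    q ≤ q₁ → ∀ {α : Type} [DecidableEq α] (m D : ℕ) (u : Finset α), 1 ≤ m → #u = m →
    ∀ 𝒜 ℬ : Finset (Finset α), (∀ A ∈ 𝒜, A ⊆ u) → (∀ B ∈ ℬ, B ⊆ u) →
      (∀ A ∈ 𝒜, ∀ B ∈ ℬ, hd A B ≤ D) →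
      q ^ D * (#𝒜 : ℝ) * (#ℬ : ℝ) ≤ B * ((1 + q) ^ (2 * m) / m) := by
  obtain ⟨B₁, hB₁, hup⟩ := gK_up q₀ q₁ h₀ h₁
  have h1q : 0 < 1 - q₁ := by linarith
  refine ⟨B₁ / q₀ + 4 / (1 - q₁) ^ 2, by positivity, ?_⟩
  intro q hq₀ hq₁ α _ m D u hm hu 𝒜 ℬ hA hB h
  have hq : 0 < q := lt_of_lt_of_le h₀ hq₀
  have hq1 : q < 1 := lt_of_le_of_lt hq₁ h₁
  have hm0 : (0 : ℝ) < m := by exact_mod_cast hm
  set Y : ℝ := (1 + q) ^ (2 * m) / m with hYdef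
  have hY : 0 < Y := by positivity
  have hc1 : 0 ≤ B₁ / q₀ * Y := by positivity
  have hc2 : 0 ≤ 4 / (1 - q₁) ^ 2 * Y := by positivity
  rw [add_mul]
  rcases lt_or_ge D m with hD | hD
  · rcases 𝒜.eq_empty_or_nonempty with hA0 | hA0
    · rw [hA0]
      simp only [card_empty, Nat.cast_zero, mul_zero, zero_mul]
      linarith
    rcases ℬ.eq_empty_or_nonempty with hB0 | hB0
    · rw [hB0]
      simp only [card_empty, Nat.cast_zero, mul_zero]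
      linarith
    obtain ⟨a, ha, h1, h2⟩ := cross hD u hu 𝒜 ℬ hA hB hA0 hB0 h
    have e1 := hup q hq₀ hq₁ m (a + 1) hm
    have e2 := hup q hq₀ hq₁ m (2 * D - a) hm
    have f1 : (#𝒜 : ℝ) ≤ gK m (a + 1) := by exact_mod_cast h1
    have f2 : (#ℬ : ℝ) ≤ gK m (2 * D - a) := by exact_mod_cast h2
    have g1 : (q ^ D * (#𝒜 : ℝ) * (#ℬ : ℝ)) ^ 2 ≤ (B₁ / q₀ * Y) ^ 2 := by
      have hpow : q ^ D * q ^ D * q = q ^ (a + 1) * q ^ (2 * D - a) := by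
        rw [← pow_add, ← pow_succ, ← pow_add]
        congr 1
        omega
      have k1 : (q ^ D * (#𝒜 : ℝ) * (#ℬ : ℝ)) ^ 2 * q ≤
          ((gK m (a + 1) : ℝ) ^ 2 * q ^ (a + 1)) * ((gK m (2 * D - a) : ℝ) ^ 2 * q ^ (2 * D - a)) := by
        calc (q ^ D * (#𝒜 : ℝ) * (#ℬ : ℝ)) ^ 2 * q
            = ((#𝒜 : ℝ) ^ 2 * (#ℬ : ℝ) ^ 2) * (q ^ D * q ^ D * q) := by ring
          _ = ((#𝒜 : ℝ) ^ 2 * (#ℬ : ℝ) ^ 2) * (q ^ (a + 1) * q ^ (2 * D - a)) := by rw [hpow]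
          _ ≤ ((gK m (a + 1) : ℝ) ^ 2 * (gK m (2 * D - a) : ℝ) ^ 2) *
              (q ^ (a + 1) * q ^ (2 * D - a)) := by gcongr
          _ = _ := by ring
      have k2 : ((gK m (a + 1) : ℝ) ^ 2 * q ^ (a + 1)) *
          ((gK m (2 * D - a) : ℝ) ^ 2 * q ^ (2 * D - a)) ≤ (B₁ * Y) * (B₁ * Y) := by
        gcongr
      have k3 := k1.trans k2
      have k4 : (q ^ D * (#𝒜 : ℝ) * (#ℬ : ℝ)) ^ 2 * q₀ ≤ (B₁ * Y) * (B₁ * Y) := by
        refine le_trans ?_ k3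
        gcongr
      have hq01 : q₀ ≤ 1 := by linarith
      have k5 : (q ^ D * (#𝒜 : ℝ) * (#ℬ : ℝ)) ^ 2 ≤ (B₁ * Y) * (B₁ * Y) / q₀ := by
        rw [le_div_iff₀ h₀]
        exact k4
      refine k5.trans ?_
      rw [show (B₁ / q₀ * Y) ^ 2 = (B₁ * Y) * (B₁ * Y) / (q₀ * q₀) by field_simp]
      apply div_le_div_of_nonneg_left (by positivity) (by positivity)
      nlinarith
    have g2 : q ^ D * (#𝒜 : ℝ) * (#ℬ : ℝ) ≤ B₁ / q₀ * Y :=
      (sq_le_sq₀ (by positivity) hc1).mp g1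
    linarith
  · have f1 := Ball_card_le u hu 𝒜 hA
    have f2 := Ball_card_le u hu ℬ hB
    have f3 : q ^ D ≤ q ^ m := pow_le_pow_of_le_one hq.le hq1.le hD
    have f4 : q ^ D * (#𝒜 : ℝ) * (#ℬ : ℝ) ≤ q ^ m * 2 ^ m * 2 ^ m := by gcongr
    have f5 : q ^ m * 2 ^ m * 2 ^ m = (4 * q) ^ m := by
      rw [mul_pow, show (4 : ℝ) = 2 * 2 by norm_num, mul_pow]
      ring
    rw [f5] at f4
    have f6 := Ball_big q q₁ hq hq₁ h₁ m hm
    rw [← hYdef] at f6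
    linarith

end Pool.Agent.H.MP_602efc_co.Ent
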