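import Pool.Agent.H.MP_602efc_co.Ent.Two

/-!
# The inequality for two families with a better estimate on a set of coordinates without stars
-/

open Finset

namespace Pool.Agent.H.MP_602efc_co.Ent

variable {δ ι : Type*}

/-- The case of no coordinates: the sums over the level sets of the heights. -/
theorem base_empty (q : ℝ) (hq : 0 < q) (M : ℝ) (hM : 0 ≤ M) (s : ℕ) (N : ι → ι → ℕ)
    (S T : Finset ι) (h g : ι → ℤ) (H G : ℤ)
    (hbase : ∀ (A B : Finset ι) (D : ℕ), A ⊆ S → B ⊆ T →
      (∀ i ∈ A, ∀ j ∈ B, N i j ≤ D) → q ^ D * (#A : ℝ) * (#B : ℝ) ≤ M)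
    (hS : ∀ i ∈ S, H ≤ h i ∧ h i ≤ H + s) (hT : ∀ i ∈ T, G ≤ g i ∧ g i ≤ G + s)
    (hN : ∀ i ∈ S, ∀ j ∈ T, (N i j : ℤ) ≤ h i + g j) :
    (∑ i ∈ S, q ^ h i) * (∑ j ∈ T, q ^ g j) ≤ ((s : ℝ) + 1) ^ 2 * M := by
  classical
  have e1 : ∑ i ∈ S, q ^ h i = ∑ a ∈ range (s + 1), ∑ i ∈ S with h i = H + a, q ^ h i := by
    rw [← sum_fiberwise_of_maps_to (g := fun i => (h i - H).toNat) (t := range (s + 1))]
    · refine sum_congr rfl fun a ha => sum_congr ?_ fun _ _ => rfl
      ext i
      simp only [mem_filter]
      constructor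
      · rintro ⟨hi, h1⟩
        have h2 := hS i hi
        exact ⟨hi, by omega⟩
      · rintro ⟨hi, h1⟩
        exact ⟨hi, by omega⟩
    · intro i hi
      have h2 := hS i hi
      rw [mem_range]
      omega
  have e2 : ∑ i ∈ T, q ^ g i = ∑ a ∈ range (s + 1), ∑ i ∈ T with g i = G + a, q ^ g i := by
    rw [← sum_fiberwise_of_maps_to (g := fun i => (g i - G).toNat) (t := range (s + 1))]
    · refine sum_congr rfl fun a ha => sum_congr ?_ fun _ _ => rfl
      ext i
      simp only [mem_filter]
      constructor
      · rintro ⟨hi, h1⟩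
        have h2 := hT i hi
        exact ⟨hi, by omega⟩
      · rintro ⟨hi, h1⟩
        exact ⟨hi, by omega⟩
    · intro i hi
      have h2 := hT i hi
      rw [mem_range]
      omega
  rw [e1, e2, sum_mul_sum]
  have key : ∀ a ∈ range (s + 1), ∀ b ∈ range (s + 1),
      (∑ i ∈ S with h i = H + a, q ^ h i) * (∑ i ∈ T with g i = G + b, q ^ g i) ≤ M := by
    intro a _ b _
    have f1 : ∑ i ∈ S with h i = H + a, q ^ h i = #{i ∈ S | h i = H + a} * q ^ (H + a) := by
      rw [sum_congr rfl fun i hi => by rw [(mem_filter.1 hi).2], sum_const, nsmul_eq_mul]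
    have f2 : ∑ i ∈ T with g i = G + b, q ^ g i = #{i ∈ T | g i = G + b} * q ^ (G + b) := by
      rw [sum_congr rfl fun i hi => by rw [(mem_filter.1 hi).2], sum_const, nsmul_eq_mul]
    rw [f1, f2]
    rcases eq_empty_or_nonempty {i ∈ S | h i = H + a} with h0 | ⟨i, hi⟩
    · rw [h0]
      simpa using hM
    rcases eq_empty_or_nonempty {i ∈ T | g i = G + b} with h0' | ⟨j, hj⟩
    · rw [h0']
      simpa using hM
    have hi' := mem_filter.1 hi
    have hj' := mem_filter.1 hj
    have hD := hN i hi'.1 j hj'.1
    rw [hi'.2, hj'.2] at hD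
    obtain ⟨D, hDe⟩ : ∃ D : ℕ, (D : ℤ) = H + a + (G + b) :=
      ⟨(H + a + (G + b)).toNat, by omega⟩
    have h3 := hbase {i ∈ S | h i = H + a} {i ∈ T | g i = G + b} D (filter_subset _ _)
      (filter_subset _ _) (by
        intro i1 hi1 j1 hj1
        have hi1' := mem_filter.1 hi1
        have hj1' := mem_filter.1 hj1
        have := hN i1 hi1'.1 j1 hj1'.1
        rw [hi1'.2, hj1'.2] at this
        omega)
    refine le_trans (le_of_eq ?_) h3
    have h4 : q ^ D = q ^ (H + a) * q ^ (G + b) := by
      rw [← zpow_natCast, hDe, zpow_add₀ hq.ne']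
    rw [h4]
    ring
  calc ∑ a ∈ range (s + 1), ∑ b ∈ range (s + 1),
        (∑ i ∈ S with h i = H + a, q ^ h i) * (∑ i ∈ T with g i = G + b, q ^ g i)
      ≤ ∑ a ∈ range (s + 1), ∑ b ∈ range (s + 1), M :=
        sum_le_sum fun a ha => sum_le_sum fun b hb => key a ha b hb
    _ = ((s : ℝ) + 1) ^ 2 * M := by
        simp only [sum_const, card_range, nsmul_eq_mul]
        push_cast
        ring

/-- The inequality for two families, with integral heights; the coordinates in `R` are not used in
the induction, there the estimate `hbase` is used. -/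
theorem base_families [DecidableEq δ] (q : ℝ) (hq : 0 < q) (hq1 : q ≤ 1)
    (u : ι → δ → Option Bool) (P : ι → Prop) (R : Finset δ) (M : ℝ) (hM : 0 ≤ M) (s : ℕ)
    (hbase : ∀ (A B : Finset ι) (D : ℕ), (∀ i ∈ A, P i) → (∀ i ∈ B, P i) →
      (∀ i ∈ A, ∀ i' ∈ A, i ≠ i' → 1 ≤ cf R (u i) (u i')) →
      (∀ i ∈ B, ∀ i' ∈ B, i ≠ i' → 1 ≤ cf R (u i) (u i')) →
      (∀ i ∈ A, ∀ j ∈ B, cf R (u i) (u j) ≤ D) → q ^ D * (#A : ℝ) * (#B : ℝ) ≤ M)
    (J : Finset δ) :
    ∀ (S T : Finset ι) (h g : ι → ℤ) (H G : ℤ),
      (∀ i ∈ S, P i) → (∀ i ∈ T, P i) →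
      (∀ i ∈ S, H ≤ h i ∧ h i + st J (u i) ≤ H + s) →
      (∀ i ∈ T, G ≤ g i ∧ g i + st J (u i) ≤ G + s) →
      (∀ i ∈ S, ∀ i' ∈ S, i ≠ i' → 1 ≤ cf J (u i) (u i') + cf R (u i) (u i')) →
      (∀ i ∈ T, ∀ i' ∈ T, i ≠ i' → 1 ≤ cf J (u i) (u i') + cf R (u i) (u i')) →
      (∀ i ∈ S, ∀ j ∈ T, ((cf J (u i) (u j) + cf R (u i) (u j) : ℕ) : ℤ) ≤ h i + g j) →
      (∑ i ∈ S, ((1 + q) ^ 2 / 2) ^ st J (u i) * q ^ h i) *
        (∑ j ∈ T, ((1 + q) ^ 2 / 2) ^ st J (u j) * q ^ g j) ≤
        ((s : ℝ) + 1) ^ 2 * M * (1 + q) ^ (2 * #J) := by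
  induction J using Finset.induction_on with
  | empty =>
    intro S T h g H G hPS hPT hh hg hS hT hST
    have h1 := base_empty q hq M hM s (fun i j => cf R (u i) (u j)) S T h g H G
      (fun A B D hA hB hD => hbase A B D (fun i hi => hPS i (hA hi)) (fun i hi => hPT i (hB hi))
        (fun i hi i' hi' hne => by
          have := hS i (hA hi) i' (hA hi') hne
          simpa [cf] using this)
        (fun i hi i' hi' hne => by
          have := hT i (hB hi) i' (hB hi') hne
          simpa [cf] using this) hD)
      (fun i hi => by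
        have := hh i hi
        simpa [st] using this)
      (fun i hi => by
        have := hg i hi
        simpa [st] using this)
      (fun i hi j hj => by
        have := hST i hi j hj
        simpa [cf] using this)
    simpa [st] using h1
  | insert a J ha IH =>
    intro S T h g H G hPS hPT hh hg hS hT hST
    have hρ : 0 ≤ (1 + q) ^ 2 / 2 := by positivity
    set ρ : ℝ := (1 + q) ^ 2 / 2 with hρdef
    have hqz : ∀ n : ℤ, 0 < q ^ n := fun n => zpow_pos hq n
    -- the parts of the sums
    let A : Bool → ℝ := fun x => ∑ i ∈ S, if u i a = some x then ρ ^ st J (u i) * q ^ h i else 0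
    let A' : ℝ := ∑ i ∈ S, if u i a = none then ρ ^ st J (u i) * q ^ h i else 0
    let B : Bool → ℝ := fun x => ∑ j ∈ T, if u j a = some x then ρ ^ st J (u j) * q ^ g j else 0
    let B' : ℝ := ∑ j ∈ T, if u j a = none then ρ ^ st J (u j) * q ^ g j else 0
    have hA : ∀ x, 0 ≤ A x := fun x => sum_nonneg fun i hi => by
      split_ifs
      · exact mul_nonneg (pow_nonneg hρ _) (hqz _).le
      · exact le_rfl
    have hA' : 0 ≤ A' := sum_nonneg fun i hi => by
      split_ifs
      · exact mul_nonneg (pow_nonneg hρ _) (hqz _).le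
      · exact le_rfl
    have hB : ∀ x, 0 ≤ B x := fun x => sum_nonneg fun i hi => by
      split_ifs
      · exact mul_nonneg (pow_nonneg hρ _) (hqz _).le
      · exact le_rfl
    have hB' : 0 ≤ B' := sum_nonneg fun i hi => by
      split_ifs
      · exact mul_nonneg (pow_nonneg hρ _) (hqz _).le
      · exact le_rfl
    have hcf : ∀ x y : δ → Option Bool, cf (insert a J) x y =
        (if x a ≠ none ∧ y a ≠ none ∧ x a ≠ y a then 1 else 0) + cf J x y := fun x y => by
      rw [cf, sum_insert ha, cf]
    have hst : ∀ x : δ → Option Bool, st (insert a J) x =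
        (if x a = none then 1 else 0) + st J x := fun x => by
      rw [st, sum_insert ha, st]
    have htot1 : ∑ i ∈ S, ρ ^ st (insert a J) (u i) * q ^ h i = A false + A true + ρ * A' := by
      simp only [A, A']
      rw [mul_sum, ← sum_add_distrib, ← sum_add_distrib]
      refine sum_congr rfl fun i _ => ?_
      rw [hst]
      rcases h : u i a with _ | _ | _ <;> simp [pow_succ, pow_add]
      ring
    have htot2 : ∑ j ∈ T, ρ ^ st (insert a J) (u j) * q ^ g j = B false + B true + ρ * B' := by
      simp only [B, B']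
      rw [mul_sum, ← sum_add_distrib, ← sum_add_distrib]
      refine sum_congr rfl fun i _ => ?_
      rw [hst]
      rcases h : u i a with _ | _ | _ <;> simp [pow_succ, pow_add]
      ring
    rw [htot1, htot2]
    -- bounds for the heights
    have hh0 : ∀ i ∈ S, H ≤ h i ∧ h i + st J (u i) ≤ H + s := fun i hi => by
      have h1 := hh i hi
      rw [hst] at h1
      refine ⟨h1.1, ?_⟩
      have h2 := h1.2
      push_cast at h2
      split_ifs at h2 <;> omega
    have hg0 : ∀ i ∈ T, G ≤ g i ∧ g i + st J (u i) ≤ G + s := fun i hi => by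
      have h1 := hg i hi
      rw [hst] at h1
      refine ⟨h1.1, ?_⟩
      have h2 := h1.2
      push_cast at h2
      split_ifs at h2 <;> omega
    -- same letter
    have same : ∀ x : Bool, (A x + A') * (B x + B') ≤
        ((s : ℝ) + 1) ^ 2 * M * (1 + q) ^ (2 * #J) := by
      intro x
      have key := IH (S.filter fun i => u i a ≠ some (!x)) (T.filter fun j => u j a ≠ some (!x))
        h g H G (fun i hi => hPS i (mem_filter.1 hi).1) (fun i hi => hPT i (mem_filter.1 hi).1)
        (fun i hi => hh0 i (mem_filter.1 hi).1) (fun j hj => hg0 j (mem_filter.1 hj).1) ?_ ?_ ?_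
      · have e1 : ∑ i ∈ S.filter (fun i => u i a ≠ some (!x)), ρ ^ st J (u i) * q ^ h i =
            A x + A' := by
          simp only [A, A']
          rw [sum_filter, ← sum_add_distrib]
          refine sum_congr rfl fun i _ => ?_
          rcases h : u i a with _ | _ | _ <;> cases x <;> simp
        have e2 : ∑ j ∈ T.filter (fun j => u j a ≠ some (!x)), ρ ^ st J (u j) * q ^ g j =
            B x + B' := by
          simp only [B, B']
          rw [sum_filter, ← sum_add_distrib]
          refine sum_congr rfl fun i _ => ?_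
          rcases h : u i a with _ | _ | _ <;> cases x <;> simp
        rw [e1, e2] at key
        exact key
      · intro i hi i' hi' hii
        rw [mem_filter] at hi hi'
        have h5 := hS i hi.1 i' hi'.1 hii
        rw [hcf] at h5
        have h6 : ¬ (u i a ≠ none ∧ u i' a ≠ none ∧ u i a ≠ u i' a) := notconf hi.2 hi'.2
        rwa [if_neg h6, zero_add] at h5
      · intro i hi i' hi' hii
        rw [mem_filter] at hi hi'
        have h5 := hT i hi.1 i' hi'.1 hii
        rw [hcf] at h5
        have h6 : ¬ (u i a ≠ none ∧ u i' a ≠ none ∧ u i a ≠ u i' a) := notconf hi.2 hi'.2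
        rwa [if_neg h6, zero_add] at h5
      · intro i hi j hj
        rw [mem_filter] at hi hj
        refine le_trans ?_ (hST i hi.1 j hj.1)
        rw [hcf]
        push_cast
        have : (0 : ℤ) ≤ (if u i a ≠ none ∧ u j a ≠ none ∧ u i a ≠ u j a then (1 : ℤ) else 0) := by
          split_ifs <;> norm_num
        linarith
    -- different letters
    have diff : ∀ x : Bool, (A x + q * A') * (B (!x) + q * B') ≤
        q * (((s : ℝ) + 1) ^ 2 * M * (1 + q) ^ (2 * #J)) := by
      intro x
      have key := IH (S.filter fun i => u i a ≠ some (!x)) (T.filter fun j => u j a ≠ some x)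
        (fun i => if u i a = none then h i else h i - 1)
        (fun j => if u j a = none then g j + 1 else g j) (H - 1) G
        (fun i hi => hPS i (mem_filter.1 hi).1) (fun i hi => hPT i (mem_filter.1 hi).1)
        ?_ ?_ ?_ ?_ ?_
      · have e1 : ∑ i ∈ S.filter (fun i => u i a ≠ some (!x)),
            ρ ^ st J (u i) * q ^ (if u i a = none then h i else h i - 1) = A x / q + A' := by
          simp only [A, A']
          rw [sum_filter, sum_div, ← sum_add_distrib]
          refine sum_congr rfl fun i _ => ?_
          have e0 : q ^ (h i - 1) = q ^ h i / q := by rw [zpow_sub_one₀ hq.ne']; rfl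
          rcases h : u i a with _ | _ | _ <;> cases x <;> simp [e0] <;> ring
        have e2 : ∑ j ∈ T.filter (fun j => u j a ≠ some x),
            ρ ^ st J (u j) * q ^ (if u j a = none then g j + 1 else g j) = B (!x) + q * B' := by
          simp only [B, B']
          rw [sum_filter, mul_sum, ← sum_add_distrib]
          refine sum_congr rfl fun i _ => ?_
          have e0 : q ^ (g i + 1) = q ^ g i * q := zpow_add_one₀ hq.ne' _
          rcases h : u i a with _ | _ | _ <;> cases x <;> simp [e0] <;> ring
        rw [e1, e2] at key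
        have e3 : (A x + q * A') * (B (!x) + q * B') =
            q * ((A x / q + A') * (B (!x) + q * B')) := by
          field_simp
        rw [e3]
        exact mul_le_mul_of_nonneg_left key hq.le
      · intro i hi
        have h1 := hh i (mem_filter.1 hi).1
        rw [hst] at h1
        obtain ⟨h2, h3⟩ := h1
        push_cast at h3
        by_cases h4 : u i a = none
        · simp only [if_pos h4] at h3 ⊢
          exact ⟨by omega, by omega⟩
        · simp only [if_neg h4] at h3 ⊢
          exact ⟨by omega, by omega⟩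
      · intro i hi
        have h1 := hg i (mem_filter.1 hi).1
        rw [hst] at h1
        obtain ⟨h2, h3⟩ := h1
        push_cast at h3
        by_cases h4 : u i a = none
        · simp only [if_pos h4] at h3 ⊢
          exact ⟨by omega, by omega⟩
        · simp only [if_neg h4] at h3 ⊢
          exact ⟨by omega, by omega⟩
      · intro i hi i' hi' hii
        rw [mem_filter] at hi hi'
        have h5 := hS i hi.1 i' hi'.1 hii
        rw [hcf] at h5
        have h6 : ¬ (u i a ≠ none ∧ u i' a ≠ none ∧ u i a ≠ u i' a) := notconf hi.2 hi'.2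
        rwa [if_neg h6, zero_add] at h5
      · intro i hi i' hi' hii
        rw [mem_filter] at hi hi'
        have h5 := hT i hi.1 i' hi'.1 hii
        rw [hcf] at h5
        have h6 : ¬ (u i a ≠ none ∧ u i' a ≠ none ∧ u i a ≠ u i' a) := notconf hi.2 hi'.2
        rwa [if_neg h6, zero_add] at h5
      · intro i hi j hj
        rw [mem_filter] at hi hj
        have h5 := hST i hi.1 j hj.1
        rw [hcf] at h5
        by_cases h6 : u i a = none
        · have h7 : ¬ (u i a ≠ none ∧ u j a ≠ none ∧ u i a ≠ u j a) := fun h => h.1 h6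
          rw [if_neg h7, zero_add] at h5
          simp only [if_pos h6]
          split_ifs <;> omega
        · simp only [if_neg h6]
          by_cases h9 : u j a = none
          · have h7 : ¬ (u i a ≠ none ∧ u j a ≠ none ∧ u i a ≠ u j a) := fun h => h.2.1 h9
            rw [if_neg h7, zero_add] at h5
            simp only [if_pos h9]
            omega
          · have h7 : u i a ≠ none ∧ u j a ≠ none ∧ u i a ≠ u j a :=
              ⟨h6, h9, isconf hi.2 hj.2 h6 h9⟩
            rw [if_pos h7] at h5
            simp only [if_neg h9]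
            push_cast at h5 ⊢
            omega
    have hfin := step q (A false) (A true) A' (B false) (B true) B'
      (((s : ℝ) + 1) ^ 2 * M * (1 + q) ^ (2 * #J)) hq hq1
      (hA _) (hA _) hA' (hB _) (hB _) hB' (by positivity) (same false) (same true)
      (by simpa using diff false) (by simpa using diff true)
    refine hfin.trans (le_of_eq ?_)
    rw [card_insert_of_notMem ha]
    ring

end Pool.Agent.H.MP_602efc_co.Ent
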