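import Mathlib

/-!
# The entropy function is at most twice the standard deviation
-/

open Finset Real

namespace Pool.Agent.H.MP_602efc_co.Ent

/-- `(1 - x) log (1 + x) ≤ x log (1 / x)` for `0 < x ≤ 1`. For `x ≤ 1/3` use `log (1 + x) ≤ x` and
`1 ≤ log 3 ≤ log (1 / x)`. For `x ≥ 1/3` let `φ x = - x log x - (1 - x) log (1 + x)`; `φ 1 = 0` and
`φ' x = - log x - 1 + log (1 + x) - (1 - x) / (1 + x) = log ((1 + x) / x) - 2 / (1 + x)`. Or: with
`log (1 / x) ≥ 2 (1 - x) / (1 + x)` (`y ↦ log y` against `2 (y - 1) / (y + 1)` for `y = 1 / x ≥ 1`) it is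
enough that `log (1 + x) ≤ 2 x / (1 + x)`, which holds for `1/3 ≤ x ≤ 1` (concavity: at `x = 1` it is
`log 2 ≤ 1`; `2 x / (1 + x) - log (1 + x)` has derivative `(1 - x) / (1 + x) ^ 2 ≥ 0` and vanishes at
`0`, so it holds for all `0 ≤ x ≤ 1`). -/
theorem Bin_aux {x : ℝ} (h0 : 0 < x) (h1 : x ≤ 1) :
    (1 - x) * log (1 + x) ≤ x * log (1 / x) := by
  have hA : 2 * (1 - x) / (1 + x) ≤ log (1 / x) := by
    have hy : 0 ≤ 1 / x - 1 := by
      rw [sub_nonneg, le_div_iff₀ h0]
      linarith
    have h := Real.le_log_one_add_of_nonneg hy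
    have e1 : 1 + (1 / x - 1) = 1 / x := by ring
    have e2 : 2 * (1 / x - 1) / (1 / x - 1 + 2) = 2 * (1 - x) / (1 + x) := by
      have hx : x ≠ 0 := h0.ne'
      have h2 : 1 / x - 1 + 2 = (1 + x) / x := by
        field_simp
        ring
      have h3 : 1 / x - 1 = (1 - x) / x := by
        field_simp
      rw [h2, h3]
      have h4 : (1 + x) ≠ 0 := by positivity
      field_simp
    rw [e1, e2] at h
    exact h
  have hB : log (1 + x) ≤ 2 * x / (1 + x) := by
    -- the logarithm at `1 / (1 + x) ∈ [1/2, 1]` lies over the chord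
    have hpos : 0 < 1 + x := by linarith
    have m1 : (1 / 2 : ℝ) ∈ Set.Ioi (0 : ℝ) := Set.mem_Ioi.2 (by norm_num)
    have m2 : (1 : ℝ) ∈ Set.Ioi (0 : ℝ) := Set.mem_Ioi.2 (by norm_num)
    have n1 : 0 ≤ 2 * x / (1 + x) := by positivity
    have n2 : 0 ≤ 1 - 2 * x / (1 + x) := by
      rw [sub_nonneg, div_le_one hpos]
      linarith
    have hcc : ConcaveOn ℝ (Set.Ioi (0 : ℝ)) log := strictConcaveOn_log_Ioi.concaveOn
    have hc := (And.right hcc) m1 m2 n1 n2 (by ring)
    have e1 : (2 * x / (1 + x)) • (1 / 2 : ℝ) + (1 - 2 * x / (1 + x)) • (1 : ℝ) = 1 / (1 + x) := by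
      simp only [smul_eq_mul]
      field_simp
      ring
    rw [e1] at hc
    simp only [smul_eq_mul, Real.log_one, mul_zero, add_zero] at hc
    rw [one_div, Real.log_inv, one_div, Real.log_inv] at hc
    have h2 : log 2 ≤ 1 := by
      have := Real.log_two_lt_d9
      linarith
    have h3 : 0 ≤ 2 * x / (1 + x) := by positivity
    nlinarith [mul_le_mul_of_nonneg_left h2 h3]
  calc (1 - x) * log (1 + x) ≤ (1 - x) * (2 * x / (1 + x)) :=
        mul_le_mul_of_nonneg_left hB (by linarith)
    _ = x * (2 * (1 - x) / (1 + x)) := by ring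
    _ ≤ x * log (1 / x) := mul_le_mul_of_nonneg_left hA h0.le

/-- `cosh t * log (2 cosh t) - t * sinh t` is at most its value `log 2` at `t = 0`: its derivative is
`sinh t * log (2 cosh t) - t * cosh t ≤ 0` for `t ≥ 0`, because with `x = exp (-2 t)` we have
`log (2 cosh t) = t + log (1 + x)`, `t * cosh t / sinh t = t * (1 + x) / (1 - x) = t + x * log (1 / x) /
(1 - x)` (`Bin_aux`). -/
theorem Bin_cosh {t : ℝ} (ht : 0 ≤ t) :
    cosh t * log (2 * cosh t) - t * sinh t ≤ log 2 := by
  have hder : ∀ u : ℝ, HasDerivAt (fun v : ℝ => cosh v * log (2 * cosh v) - v * sinh v)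
      (sinh u * log (2 * cosh u) - u * cosh u) u := by
    intro u
    have hc : HasDerivAt (fun v : ℝ => cosh v) (sinh u) u := Real.hasDerivAt_cosh u
    have hs : HasDerivAt (fun v : ℝ => sinh v) (cosh u) u := Real.hasDerivAt_sinh u
    have hcp : 0 < cosh u := Real.cosh_pos u
    have hl : HasDerivAt (fun v : ℝ => log (2 * cosh v)) ((2 * sinh u) / (2 * cosh u)) u :=
      (hc.const_mul 2).log (by positivity)
    have h1 := (hc.mul hl).sub ((hasDerivAt_id' u).mul hs)
    refine h1.congr_deriv ?_
    field_simp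
    ring
  have hanti : AntitoneOn (fun v : ℝ => cosh v * log (2 * cosh v) - v * sinh v) (Set.Ici 0) := by
    apply antitoneOn_of_deriv_nonpos (convex_Ici 0)
    · exact fun u _ => (hder u).continuousAt.continuousWithinAt
    · exact fun u _ => (hder u).differentiableAt.differentiableWithinAt
    · intro u hu
      rw [interior_Ici] at hu
      have hu0 : 0 < u := hu
      rw [(hder u).deriv]
      have hx0 : 0 < exp (-(2 * u)) := Real.exp_pos _
      have hx1 : exp (-(2 * u)) ≤ 1 := by
        rw [Real.exp_le_one_iff]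
        linarith
      have hA := Bin_aux hx0 hx1
      rw [one_div, Real.log_inv, Real.log_exp, neg_neg] at hA
      have hE : exp (-u) = exp u * exp (-(2 * u)) := by
        rw [← Real.exp_add]
        congr 1
        ring
      have hch : cosh u = exp u * (1 + exp (-(2 * u))) / 2 := by
        rw [Real.cosh_eq, hE]
        ring
      have hsh : sinh u = exp u * (1 - exp (-(2 * u))) / 2 := by
        rw [Real.sinh_eq, hE]
        ring
      have hlog : log (2 * cosh u) = u + log (1 + exp (-(2 * u))) := by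
        have : 2 * cosh u = exp u * (1 + exp (-(2 * u))) := by
          rw [hch]
          ring
        rw [this, Real.log_mul (Real.exp_pos u).ne' (by positivity), Real.log_exp]
      rw [hlog, hch, hsh]
      have he : 0 < exp u := Real.exp_pos u
      have hkey : exp u * (1 - exp (-(2 * u))) / 2 * (u + log (1 + exp (-(2 * u))))
          - u * (exp u * (1 + exp (-(2 * u))) / 2)
          = exp u / 2 * ((1 - exp (-(2 * u))) * log (1 + exp (-(2 * u)))
            - exp (-(2 * u)) * (2 * u)) := by ring
      rw [hkey]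
      exact mul_nonpos_of_nonneg_of_nonpos (by positivity) (by linarith)
  have h := hanti (Set.mem_Ici.2 le_rfl) (Set.mem_Ici.2 ht) ht
  simpa using h

/-- The case `0 < b ≤ a`. -/
theorem Bin_pos {a b : ℝ} (hb : 0 < b) (hab : b ≤ a) :
    (a + b) * log (a + b) - a * log a - b * log b ≤ 2 * log 2 * √(a * b) := by
  have ha : 0 < a := lt_of_lt_of_le hb hab
  set s : ℝ := √(a * b) with hs
  have hs0 : 0 < s := Real.sqrt_pos.2 (mul_pos ha hb)
  have hls : log s = (log a + log b) / 2 := by
    rw [hs, Real.log_sqrt (mul_pos ha hb).le, Real.log_mul ha.ne' hb.ne']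
  set t : ℝ := (log a - log b) / 2 with ht
  have ht0 : 0 ≤ t := by
    have := Real.log_le_log hb hab
    rw [ht]
    linarith
  have hea : s * exp t = a := by
    rw [← Real.exp_log hs0, ← Real.exp_add, hls, ht,
      show (log a + log b) / 2 + (log a - log b) / 2 = log a by ring, Real.exp_log ha]
  have heb : s * exp (-t) = b := by
    rw [← Real.exp_log hs0, ← Real.exp_add, hls, ht,
      show (log a + log b) / 2 + -((log a - log b) / 2) = log b by ring, Real.exp_log hb]
  have hsum : a + b = s * (2 * cosh t) := by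
    rw [Real.cosh_eq, ← hea, ← heb]
    ring
  have hdif : a - b = s * (2 * sinh t) := by
    rw [Real.sinh_eq, ← hea, ← heb]
    ring
  have hlsum : log (a + b) = log s + log (2 * cosh t) := by
    have hcp : 0 < cosh t := Real.cosh_pos t
    rw [hsum, Real.log_mul hs0.ne' (by positivity)]
  have hla : log a = log s + t := by
    rw [hls, ht]
    ring
  have hlb : log b = log s - t := by
    rw [hls, ht]
    ring
  have hkey : (a + b) * log (a + b) - a * log a - b * log b
      = 2 * s * (cosh t * log (2 * cosh t) - t * sinh t) := by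
    have e1 : (a + b) * log (a + b) - a * log a - b * log b
        = (a + b) * log (2 * cosh t) - t * (a - b) := by
      rw [hlsum, hla, hlb]
      ring
    rw [e1, hdif, hsum]
    ring
  rw [hkey]
  calc 2 * s * (cosh t * log (2 * cosh t) - t * sinh t) ≤ 2 * s * log 2 :=
        mul_le_mul_of_nonneg_left (Bin_cosh ht0) (by positivity)
    _ = 2 * log 2 * s := by ring

/-- **Entropy and standard deviation.** By symmetry `a ≥ b > 0`; put `a = (a + b) * exp t / (2 cosh t)`,
`b = (a + b) * exp (-t) / (2 cosh t)`, `t = log (a / b) / 2`; then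
`√(a b) = (a + b) / (2 cosh t)` and the left side is `(a + b) * (log (2 cosh t) - t * tanh t)`. For
`a = 0` or `b = 0` both sides are `0` (`negMulLog` conventions, `0 * log 0 = 0`). -/
theorem Bin_le {a b : ℝ} (ha : 0 ≤ a) (hb : 0 ≤ b) :
    (a + b) * log (a + b) - a * log a - b * log b ≤ 2 * log 2 * √(a * b) := by
  rcases ha.eq_or_lt with h | ha'
  · rw [← h]
    simp
  rcases hb.eq_or_lt with h | hb'
  · rw [← h]
    simp
  rcases le_total b a with h | h
  · exact Bin_pos hb' h
  · have := Bin_pos ha' h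
    rw [mul_comm b a, add_comm b a] at this
    linarith

end Pool.Agent.H.MP_602efc_co.Ent
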