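import Pool.Agent.H.MP_602efc_co.Ent.Two

/-!
# The choice of a set of coordinates without stars
-/

open Finset

namespace Pool.Agent.H.MP_602efc_co.Ent

/-- `d.choose m * (d - m) = d * (d - 1).choose m`; induction on `s`: if `m ≤ τ (d - s)` then
`(1 - τ) ^ s * d.choose m ≤ (d - s).choose m`. -/
theorem choose_ratio {τ : ℝ} (h0 : 0 ≤ τ) (h1 : τ < 1) (d m : ℕ) : ∀ s : ℕ, s ≤ d →
    (m : ℝ) ≤ τ * ((d : ℝ) - s) → (1 - τ) ^ s * (d.choose m : ℝ) ≤ ((d - s).choose m : ℝ) := by
  intro s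
  induction s with
  | zero =>
    intro _ _
    simp
  | succ s ih =>
    intro hs hm
    have h2 := ih (by omega) (hm.trans (by
      push_cast
      nlinarith))
    obtain ⟨n, hn⟩ : ∃ n, d - s = n + 1 := ⟨d - s - 1, by omega⟩
    have hn' : d - (s + 1) = n := by omega
    rw [hn] at h2
    rw [hn']
    have hdn : (d : ℝ) - ((s + 1 : ℕ) : ℝ) = n := by
      rw [← hn', Nat.cast_sub hs]
    rw [hdn] at hm
    have hn0 : (0 : ℝ) ≤ n := Nat.cast_nonneg n
    have hmn : (m : ℝ) ≤ n := hm.trans (by nlinarith)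
    have hmn' : m ≤ n := by exact_mod_cast hmn
    have h3 := Nat.choose_mul_succ_eq n m
    have h4 : (n.choose m : ℝ) * ((n : ℝ) + 1) =
        ((n + 1).choose m : ℝ) * ((n : ℝ) + 1 - m) := by
      have h5 : ((n + 1 - m : ℕ) : ℝ) = (n : ℝ) + 1 - m := by
        rw [Nat.cast_sub (by omega)]
        push_cast
        ring
      rw [← h5]
      exact_mod_cast h3
    have h6 : (1 - τ) * ((n + 1).choose m : ℝ) ≤ (n.choose m : ℝ) := by
      have h7 : (0 : ℝ) ≤ ((n + 1).choose m : ℝ) := Nat.cast_nonneg _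
      have h8 : (1 - τ) * ((n : ℝ) + 1) ≤ (n : ℝ) + 1 - m := by nlinarith
      have h9 : ((1 - τ) * ((n + 1).choose m : ℝ)) * ((n : ℝ) + 1) ≤
          (n.choose m : ℝ) * ((n : ℝ) + 1) := by
        rw [h4]
        nlinarith [mul_le_mul_of_nonneg_left h8 h7]
      exact le_of_mul_le_mul_right h9 (by linarith)
    calc (1 - τ) ^ (s + 1) * (d.choose m : ℝ) = (1 - τ) * ((1 - τ) ^ s * (d.choose m : ℝ)) := by
          ring
      _ ≤ (1 - τ) * ((n + 1).choose m : ℝ) := mul_le_mul_of_nonneg_left h2 (by linarith)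
      _ ≤ _ := h6

/-- Double counting of the pairs `(R, i)` with `#R = m`, `i ∈ F`, and no star of `u i` in `R`: for
every `i ∈ F` there are `(d - s).choose m` sets `R`. So for some `R` of size `m`, at least
`#F * (d - s).choose m / d.choose m ≥ (1 - τ) ^ s * #F` of the words in `F` have no star in `R`. -/
theorem exists_R {ι : Type*} [DecidableEq ι] {d : ℕ} {τ : ℝ} (h0 : 0 ≤ τ) (h1 : τ < 1) (m s : ℕ)
    (hs : s ≤ d) (hm : (m : ℝ) ≤ τ * ((d : ℝ) - s)) (u : ι → Fin d → Option Bool) (F : Finset ι)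
    (hF : ∀ i ∈ F, st univ (u i) = s) :
    ∃ R : Finset (Fin d), #R = m ∧
      (1 - τ) ^ s * (#F : ℝ) ≤ (#(F.filter fun i => ∀ x ∈ R, u i x ≠ none) : ℝ) := by
  classical
  have hsd : (s : ℝ) ≤ d := by exact_mod_cast hs
  have hmd : m ≤ d := by
    have h2 : (m : ℝ) ≤ d := hm.trans (by
      have : (0 : ℝ) ≤ s := Nat.cast_nonneg s
      nlinarith)
    exact_mod_cast h2
  have hne : (powersetCard m (univ : Finset (Fin d))).Nonempty := by
    rw [powersetCard_nonempty, card_univ, Fintype.card_fin]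
    exact hmd
  have hcount : ∑ R ∈ powersetCard m (univ : Finset (Fin d)),
      #(F.filter fun i => ∀ x ∈ R, u i x ≠ none) = #F * (d - s).choose m := by
    simp only [card_filter]
    rw [sum_comm, card_eq_sum_ones, sum_mul]
    refine sum_congr rfl fun i hi => ?_
    rw [one_mul, ← card_filter]
    have h2 : (powersetCard m (univ : Finset (Fin d))).filter (fun R => ∀ x ∈ R, u i x ≠ none) =
        powersetCard m (univ.filter fun x => u i x ≠ none) := by
      ext R
      simp only [mem_filter, mem_powersetCard, subset_univ, true_and, subset_iff, mem_univ]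
      tauto
    rw [h2, card_powersetCard]
    congr 1
    have h3 := hF i hi
    have h4 := card_filter_add_card_filter_not (s := (univ : Finset (Fin d)))
      (fun x => u i x = none)
    rw [card_univ, Fintype.card_fin] at h4
    have h5 : #(univ.filter fun x => u i x = none) = s := by
      rw [card_filter]
      exact h3
    have h6 : #(univ.filter fun x => u i x ≠ none) =
        #(univ.filter fun x => ¬ u i x = none) := rfl
    omega
  have hle : ∑ R ∈ powersetCard m (univ : Finset (Fin d)), (1 - τ) ^ s * (#F : ℝ) ≤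
      ∑ R ∈ powersetCard m (univ : Finset (Fin d)),
        (#(F.filter fun i => ∀ x ∈ R, u i x ≠ none) : ℝ) := by
    rw [sum_const, card_powersetCard, card_univ, Fintype.card_fin, nsmul_eq_mul]
    have h2 : (∑ R ∈ powersetCard m (univ : Finset (Fin d)),
        (#(F.filter fun i => ∀ x ∈ R, u i x ≠ none) : ℝ)) = (#F : ℝ) * ((d - s).choose m : ℝ) := by
      exact_mod_cast hcount
    rw [h2]
    have h3 := choose_ratio h0 h1 d m s hs hm
    have h4 : (0 : ℝ) ≤ (#F : ℝ) := Nat.cast_nonneg _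
    nlinarith [mul_le_mul_of_nonneg_left h3 h4]
  obtain ⟨R, hR, h⟩ := exists_le_of_sum_le hne hle
  exact ⟨R, (mem_powersetCard.1 hR).2, h⟩

/-- `(1 - x) ^ 2 * ∑ s < n, (s + 1) * x ^ s = 1 - (n + 1) * x ^ n + n * x ^ (n + 1) ≤ 1`. -/
theorem sum_succ_geom {x : ℝ} (h0 : 0 ≤ x) (h1 : x < 1) (n : ℕ) :
    ∑ s ∈ range n, ((s : ℝ) + 1) * x ^ s ≤ 1 / (1 - x) ^ 2 := by
  have h2 : 0 < 1 - x := by linarith
  have key : (∑ s ∈ range n, ((s : ℝ) + 1) * x ^ s) * (1 - x) ^ 2 =
      1 - ((n : ℝ) + 1) * x ^ n + n * x ^ (n + 1) := by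
    induction n with
    | zero => simp
    | succ n ih =>
      rw [sum_range_succ, add_mul, ih]
      push_cast
      ring
  rw [le_div_iff₀ (by positivity), key]
  have h3 : 0 ≤ x ^ n := pow_nonneg h0 n
  have h4 : (n : ℝ) * x ^ (n + 1) ≤ n * x ^ n := by
    rw [pow_succ]
    have h5 : x ^ n * x ≤ x ^ n := by nlinarith
    exact mul_le_mul_of_nonneg_left h5 (Nat.cast_nonneg n)
  nlinarith

/-- For `0 ≤ x < 1` the sequence `√s * x ^ s` is bounded. -/
theorem sqrt_geom {x : ℝ} (h0 : 0 ≤ x) (h1 : x < 1) : ∃ C : ℝ, 0 < C ∧ ∀ s : ℕ, √s * x ^ s ≤ C := by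
  have h2 : 0 < 1 - x := by linarith
  refine ⟨1 / (1 - x) ^ 2, by positivity, fun s => ?_⟩
  refine le_trans ?_ (sum_succ_geom h0 h1 (s + 1))
  have h3 : √(s : ℝ) ≤ (s : ℝ) + 1 := by
    rw [Real.sqrt_le_left (by positivity)]
    have : (0 : ℝ) ≤ s := Nat.cast_nonneg s
    nlinarith
  calc √(s : ℝ) * x ^ s ≤ ((s : ℝ) + 1) * x ^ s :=
        mul_le_mul_of_nonneg_right h3 (pow_nonneg h0 s)
    _ ≤ _ := single_le_sum (f := fun s : ℕ => ((s : ℝ) + 1) * x ^ s)
        (fun i _ => by positivity) (mem_range.2 (Nat.lt_succ_self s))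

end Pool.Agent.H.MP_602efc_co.Ent
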