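import Pool.Agent.H.MP_602efc_co.Ent.Ball
import Pool.Agent.H.MP_602efc_co.Ent.Cho
import Pool.Agent.H.MP_602efc_co.Ent.Base

/-!
# The number of words with exactly `s` stars
-/

open Finset CovAs CodimTwo

namespace Pool.Agent.H.MP_602efc_co.Ent

/-- the set of the coordinates in `R` at which the word `w` has the letter `some true` -/
def pt {d : ℕ} (R : Finset (Fin d)) (w : Fin d → Option Bool) : Finset (Fin d) :=
  R.filter fun x => w x = some true

/-- For words without stars in `R` the number of conflicts in `R` is the distance of the points. -/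
theorem hd_pt {d : ℕ} (R : Finset (Fin d)) (v w : Fin d → Option Bool)
    (hv : ∀ x ∈ R, v x ≠ none) (hw : ∀ x ∈ R, w x ≠ none) :
    hd (pt R v) (pt R w) = cf R v w := by
  classical
  have h1 : pt R v \ pt R w = R.filter fun x => v x = some true ∧ ¬ w x = some true := by
    ext x
    simp only [pt, mem_sdiff, mem_filter]
    tauto
  have h2 : pt R w \ pt R v = R.filter fun x => w x = some true ∧ ¬ v x = some true := by
    ext x
    simp only [pt, mem_sdiff, mem_filter]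
    tauto
  unfold hd cf
  rw [h1, h2, card_filter, card_filter, ← sum_add_distrib]
  refine sum_congr rfl fun x hx => ?_
  have h3 := hv x hx
  have h4 := hw x hx
  rcases e1 : v x with _ | _ | _ <;> rcases e2 : w x with _ | _ | _ <;> simp_all

/-- `∑ x, cf = ` the function `conf` of `As/Defs.lean`. -/
theorem conf_eq_cf {d : ℕ} (v w : Fin d → Option Bool) : conf v w = Ent.cf univ v w := by
  rfl

/-- the number of stars splits -/
theorem Fs_st_split {d : ℕ} (R : Finset (Fin d)) (w : Fin d → Option Bool) :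
    st univ w = st (univ \ R) w + st R w := by
  unfold st
  exact (sum_sdiff (subset_univ R)).symm

/-- the number of conflicts splits -/
theorem Fs_cf_split {d : ℕ} (R : Finset (Fin d)) (v w : Fin d → Option Bool) :
    Ent.cf univ v w = Ent.cf (univ \ R) v w + Ent.cf R v w := by
  unfold Ent.cf
  exact (sum_sdiff (subset_univ R)).symm

/-- no star in `R` -/
theorem Fs_st_zero {d : ℕ} (R : Finset (Fin d)) (w : Fin d → Option Bool)
    (h : ∀ x ∈ R, w x ≠ none) : st R w = 0 := by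
  unfold st
  refine sum_eq_zero fun x hx => ?_
  rw [if_neg (h x hx)]

/-- **The number of words with `s` stars.** `exists_R` gives `R` with `#R = m`; apply
`base_families` with `ι = Fin n`, `P i` the condition that `f i` has no star in `R`, `J = univ \ R`
(`cf univ = cf J + cf R`, `st univ = st J` for the words in question), `S = T` the filter of `exists_R`,
`h = fun _ => k`, `g = fun _ => 0`, `H = k`, `G = 0`, `M = B * ((1 + q) ^ (2 m) / m)`; `hbase` follows
from `cross_prod` for the families `A.image (pt R ∘ f)`, `B.image (pt R ∘ f)` (`hd_pt`; the map is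
injective on `A` since two different words of `A` are in conflict in `R`). -/
theorem fs_bound (q₀ q₁ : ℝ) (h₀ : 0 < q₀) (h₁ : q₁ < 1) : ∃ B : ℝ, 0 < B ∧ ∀ q : ℝ, q₀ ≤ q →
    q ≤ q₁ → ∀ τ : ℝ, 0 ≤ τ → τ < 1 → ∀ (n d k m s : ℕ) (f : Fin n → Fin d → Option Bool),
      (∀ u v, u ≠ v → 1 ≤ conf (f u) (f v) ∧ conf (f u) (f v) ≤ k) →
      s ≤ d → 1 ≤ m → (m : ℝ) ≤ τ * ((d : ℝ) - s) →
      ∀ F : Finset (Fin n), (∀ i ∈ F, st univ (f i) = s) →
        ((1 - τ) ^ s * (#F : ℝ) * ((1 + q) ^ 2 / 2) ^ s) ^ 2 * q ^ k ≤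
          ((s : ℝ) + 1) ^ 2 * (B * ((1 + q) ^ (2 * d) / m)) := by
  classical
  obtain ⟨B, hB, hcr⟩ := cross_prod q₀ q₁ h₀ h₁
  refine ⟨B, hB, fun q hq hq' τ hτ0 hτ1 n d k m s f hf hs hm hmτ F hF => ?_⟩
  have hqpos : 0 < q := lt_of_lt_of_le h₀ hq
  have hq1 : q ≤ 1 := hq'.trans h₁.le
  have hmpos : (0 : ℝ) < m := by exact_mod_cast hm
  obtain ⟨R, hR, hRF⟩ := exists_R hτ0 hτ1 m s hs hmτ f F hF
  have hM : 0 ≤ B * ((1 + q) ^ (2 * m) / m) := by positivity
  set S := F.filter fun i => ∀ x ∈ R, f i x ≠ none with hSdef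
  have hSP : ∀ i ∈ S, ∀ x ∈ R, f i x ≠ none := fun i hi => (mem_filter.1 hi).2
  have hst : ∀ i ∈ S, st (univ \ R) (f i) = s := fun i hi => by
    have h1 := hF i (mem_filter.1 hi).1
    rw [Fs_st_split R, Fs_st_zero R _ (hSP i hi), add_zero] at h1
    exact h1
  have hinj : ∀ A : Finset (Fin n), (∀ i ∈ A, ∀ x ∈ R, f i x ≠ none) →
      (∀ i ∈ A, ∀ i' ∈ A, i ≠ i' → 1 ≤ cf R (f i) (f i')) →
      #(A.image fun i => pt R (f i)) = #A := fun A hP hA => by
    refine card_image_of_injOn fun i hi i' hi' he => ?_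
    by_contra hne
    have h1 := hA i hi i' hi' hne
    rw [← hd_pt R _ _ (hP i hi) (hP i' hi')] at h1
    have he' : pt R (f i) = pt R (f i') := he
    rw [he', hd_self] at h1
    omega
  have hbase : ∀ (A B' : Finset (Fin n)) (D : ℕ), (∀ i ∈ A, ∀ x ∈ R, f i x ≠ none) →
      (∀ i ∈ B', ∀ x ∈ R, f i x ≠ none) →
      (∀ i ∈ A, ∀ i' ∈ A, i ≠ i' → 1 ≤ cf R (f i) (f i')) →
      (∀ i ∈ B', ∀ i' ∈ B', i ≠ i' → 1 ≤ cf R (f i) (f i')) →
      (∀ i ∈ A, ∀ j ∈ B', cf R (f i) (f j) ≤ D) →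
      q ^ D * (#A : ℝ) * (#B' : ℝ) ≤ B * ((1 + q) ^ (2 * m) / m) := by
    intro A B' D hPA hPB hA hB' hD
    have h1 := hcr q hq hq' m D R hm hR (A.image fun i => pt R (f i))
      (B'.image fun i => pt R (f i))
      (fun X hX => by
        obtain ⟨i, _, rfl⟩ := mem_image.1 hX
        exact filter_subset _ _)
      (fun X hX => by
        obtain ⟨i, _, rfl⟩ := mem_image.1 hX
        exact filter_subset _ _)
      (fun X hX Y hY => by
        obtain ⟨i, hi, rfl⟩ := mem_image.1 hX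
        obtain ⟨j, hj, rfl⟩ := mem_image.1 hY
        rw [hd_pt R _ _ (hPA i hi) (hPB j hj)]
        exact hD i hi j hj)
    rwa [hinj A hPA hA, hinj B' hPB hB'] at h1
  have hpair : ∀ i ∈ S, ∀ i' ∈ S, i ≠ i' →
      1 ≤ cf (univ \ R) (f i) (f i') + cf R (f i) (f i') := fun i _ i' _ hne => by
    have h1 := (hf i i' hne).1
    rwa [conf_eq_cf, Fs_cf_split R] at h1
  have hcross : ∀ i ∈ S, ∀ j ∈ S,
      ((cf (univ \ R) (f i) (f j) + cf R (f i) (f j) : ℕ) : ℤ) ≤ (k : ℤ) + 0 := by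
    intro i _ j _
    rw [add_zero, ← Fs_cf_split R, ← conf_eq_cf]
    by_cases hij : i = j
    · subst hij
      have : conf (f i) (f i) = 0 := by
        unfold conf CovAs.cf
        refine sum_eq_zero fun x _ => ?_
        rw [if_neg (by tauto)]
      rw [this]
      positivity
    · exact_mod_cast (hf i j hij).2
  have key := base_families q hqpos hq1 f (fun i => ∀ x ∈ R, f i x ≠ none) R
    (B * ((1 + q) ^ (2 * m) / m)) hM s hbase (univ \ R) S S (fun _ => (k : ℤ)) (fun _ => 0)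
    (k : ℤ) 0 hSP hSP
    (fun i hi => ⟨le_rfl, by rw [hst i hi]⟩) (fun i hi => ⟨le_rfl, by rw [hst i hi]⟩)
    hpair hpair hcross
  have e1 : ∑ i ∈ S, ((1 + q) ^ 2 / 2) ^ st (univ \ R) (f i) * q ^ (k : ℤ) =
      (#S : ℝ) * (((1 + q) ^ 2 / 2) ^ s * q ^ k) := by
    rw [sum_congr rfl fun i hi => by rw [hst i hi], sum_const, nsmul_eq_mul, zpow_natCast]
  have e2 : ∑ i ∈ S, ((1 + q) ^ 2 / 2) ^ st (univ \ R) (f i) * q ^ (0 : ℤ) =
      (#S : ℝ) * ((1 + q) ^ 2 / 2) ^ s := by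
    rw [sum_congr rfl fun i hi => by rw [hst i hi], sum_const, nsmul_eq_mul, zpow_zero, mul_one]
  rw [e1, e2] at key
  have hmd : m ≤ d := by
    have h2 := card_le_univ R
    rw [hR, Fintype.card_fin] at h2
    exact h2
  have hcard : #(univ \ R) = d - m := by
    rw [card_sdiff_of_subset (subset_univ R), card_univ, Fintype.card_fin, hR]
  have e3 : (1 + q) ^ (2 * m) * (1 + q) ^ (2 * (d - m)) = (1 + q) ^ (2 * d) := by
    rw [← pow_add]
    congr 1
    omega
  rw [hcard] at key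
  have hτ2 : 0 ≤ 1 - τ := by linarith
  calc ((1 - τ) ^ s * (#F : ℝ) * ((1 + q) ^ 2 / 2) ^ s) ^ 2 * q ^ k
      ≤ ((#S : ℝ) * ((1 + q) ^ 2 / 2) ^ s) ^ 2 * q ^ k := by gcongr
    _ = (#S : ℝ) * (((1 + q) ^ 2 / 2) ^ s * q ^ k) * ((#S : ℝ) * ((1 + q) ^ 2 / 2) ^ s) := by ring
    _ ≤ ((s : ℝ) + 1) ^ 2 * (B * ((1 + q) ^ (2 * m) / m)) * (1 + q) ^ (2 * (d - m)) := key
    _ = ((s : ℝ) + 1) ^ 2 * (B * ((1 + q) ^ (2 * m) * (1 + q) ^ (2 * (d - m)) / m)) := by ring
    _ = _ := by rw [e3]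

end Pool.Agent.H.MP_602efc_co.Ent
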