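import Pool.Agent.H.MP_602efc_co.Ent.Bin
import Pool.Agent.H.MP_602efc_co.As.Cov

/-!
# An upper bound from the inequality of Kraft
-/

open Finset CovAs

namespace Pool.Agent.H.MP_602efc_co.Ent

/-- weight of a letter -/
def Kraft_w (p : Bool → ℝ) (o : Option Bool) : ℝ :=
  match o with
  | none => 1
  | some b => p b

theorem Kraft_w_none (p : Bool → ℝ) : Kraft_w p none = 1 := rfl

theorem Kraft_w_some (p : Bool → ℝ) (b : Bool) : Kraft_w p (some b) = p b := rfl

theorem Kraft_cf_zero {x y : Option Bool} {b : Bool} (hx : x ≠ some (!b)) (hy : y ≠ some (!b)) :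
    CovAs.cf x y = 0 := by
  unfold CovAs.cf
  rw [if_neg]
  rintro ⟨h1, h2, h3⟩
  rcases x with _ | x
  · exact h1 rfl
  · rcases y with _ | y
    · exact h2 rfl
    · cases x <;> cases y <;> cases b <;> simp at hx hy h3

theorem Kraft_prod' {ι : Type*} {d : ℕ} (f : ι → Fin d → Option Bool) (p : Fin d → Bool → ℝ)
    (hp : ∀ i b, 0 ≤ p i b) (hp1 : ∀ i, p i false + p i true = 1) (J : Finset (Fin d)) :
    ∀ S : Finset ι, (∀ u ∈ S, ∀ v ∈ S, u ≠ v → 1 ≤ ∑ i ∈ J, CovAs.cf (f u i) (f v i)) →
      ∑ v ∈ S, ∏ i ∈ J, Kraft_w (p i) (f v i) ≤ 1 := by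
  classical
  induction J using Finset.induction_on with
  | empty =>
    intro S hS
    have h1 : S.card ≤ 1 := Finset.card_le_one.mpr (fun u hu v hv => by
      by_contra hne
      have := hS u hu v hv hne
      simp at this)
    simp only [Finset.prod_empty, Finset.sum_const, nsmul_eq_mul, mul_one]
    exact_mod_cast h1
  | insert a J ha ih =>
    intro S hS
    have key : ∀ b : Bool, ∑ v ∈ S.filter (fun v => f v a ≠ some (!b)),
        ∏ i ∈ J, Kraft_w (p i) (f v i) ≤ 1 := by
      intro b
      apply ih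
      intro u hu v hv huv
      rw [Finset.mem_filter] at hu hv
      have h := hS u hu.1 v hv.1 huv
      rw [Finset.sum_insert ha, Kraft_cf_zero hu.2 hv.2, zero_add] at h
      exact h
    have hpt : ∀ v : ι, Kraft_w (p a) (f v a) =
        p a false * (if f v a ≠ some (!false) then 1 else 0) +
        p a true * (if f v a ≠ some (!true) then 1 else 0) := by
      intro v
      rcases hv : f v a with _ | b
      · rw [Kraft_w_none]
        simp [hp1 a]
      · rw [Kraft_w_some]
        cases b <;> simp
    have hsum : ∑ v ∈ S, ∏ i ∈ insert a J, Kraft_w (p i) (f v i) =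
        p a false * ∑ v ∈ S.filter (fun v => f v a ≠ some (!false)),
          ∏ i ∈ J, Kraft_w (p i) (f v i) +
        p a true * ∑ v ∈ S.filter (fun v => f v a ≠ some (!true)),
          ∏ i ∈ J, Kraft_w (p i) (f v i) := by
      rw [Finset.sum_filter, Finset.sum_filter, Finset.mul_sum, Finset.mul_sum,
        ← Finset.sum_add_distrib]
      refine Finset.sum_congr rfl fun v _ => ?_
      rw [Finset.prod_insert ha, hpt v]
      split_ifs <;> ring
    rw [hsum]
    have h0 := mul_le_mul_of_nonneg_left (key false) (hp a false)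
    have h1 := mul_le_mul_of_nonneg_left (key true) (hp a true)
    have h2 := hp1 a
    linarith

/-- **The inequality of Kraft with a product measure.** Induction on `J`: for a coordinate `a ∉ J`
split the words by the letter at `a`; the words with the letter `some b` or `none` are pairwise in
conflict in `J`, so `X b + X' ≤ 1`, and `p a false * X false + p a true * X true + X' ≤
p a false * (X false + X') + p a true * (X true + X') ≤ 1` if `p a false + p a true = 1`. -/
theorem Kraft_prod {ι : Type*} {d : ℕ} (f : ι → Fin d → Option Bool) (p : Fin d → Bool → ℝ)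
    (hp : ∀ i b, 0 ≤ p i b) (hp1 : ∀ i, p i false + p i true = 1) (J : Finset (Fin d)) :
    ∀ S : Finset ι, (∀ u ∈ S, ∀ v ∈ S, u ≠ v → 1 ≤ ∑ i ∈ J, CovAs.cf (f u i) (f v i)) →
      ∑ v ∈ S, ∏ i ∈ J, (match f v i with
        | none => (1 : ℝ)
        | some b => p i b) ≤ 1 := by
  exact Kraft_prod' f p hp hp1 J

/-- the number of words with the letter `some b` at `i` -/
def cnt {n d : ℕ} (f : Fin n → Fin d → Option Bool) (i : Fin d) (b : Bool) : ℕ :=
  #{v | f v i = some b}

theorem Kraft_cf_eq (a b : Option Bool) :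
    CovAs.cf a b = (if a = some false then 1 else 0) * (if b = some true then 1 else 0) +
      (if a = some true then 1 else 0) * (if b = some false then 1 else 0) := by
  unfold CovAs.cf
  rcases a with _ | a <;> rcases b with _ | b
  · simp
  · simp
  · simp
  · cases a <;> cases b <;> simp

/-- Both sides count the ordered pairs `(u, v)` and coordinates in conflict (at most `k` for every
pair). -/
theorem Kraft_pairs {n d k : ℕ} (f : Fin n → Fin d → Option Bool)
    (hf : ∀ u v, u ≠ v → 1 ≤ conf (f u) (f v) ∧ conf (f u) (f v) ≤ k) :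
    2 * ∑ i, cnt f i false * cnt f i true ≤ k * n ^ 2 := by
  have h1 : ∑ u, ∑ v, conf (f u) (f v) ≤ k * n ^ 2 := by
    have h2 : ∀ u v, conf (f u) (f v) ≤ k := by
      intro u v
      rcases eq_or_ne u v with rfl | huv
      · rw [conf_self]
        exact Nat.zero_le _
      · exact (hf u v huv).2
    calc ∑ u, ∑ v, conf (f u) (f v) ≤ ∑ _u : Fin n, ∑ _v : Fin n, k :=
          Finset.sum_le_sum fun u _ => Finset.sum_le_sum fun v _ => h2 u v
      _ = k * n ^ 2 := by
          simp only [Finset.sum_const, Finset.card_univ, Fintype.card_fin, smul_eq_mul]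
          ring
  have h3 : ∑ u, ∑ v, conf (f u) (f v) = 2 * ∑ i, cnt f i false * cnt f i true := by
    unfold conf
    have h4 : ∀ i : Fin d, ∑ u, ∑ v, CovAs.cf (f u i) (f v i) =
        2 * (cnt f i false * cnt f i true) := by
      intro i
      simp only [Kraft_cf_eq, Finset.sum_add_distrib, ← Finset.mul_sum, ← Finset.sum_mul]
      unfold cnt
      rw [Finset.card_filter, Finset.card_filter]
      ring
    rw [Finset.mul_sum]
    calc ∑ u, ∑ v, ∑ i, CovAs.cf (f u i) (f v i)
        = ∑ u, ∑ i, ∑ v, CovAs.cf (f u i) (f v i) :=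
          Finset.sum_congr rfl fun u _ => Finset.sum_comm
      _ = ∑ i, ∑ u, ∑ v, CovAs.cf (f u i) (f v i) := Finset.sum_comm
      _ = ∑ i, 2 * (cnt f i false * cnt f i true) := Finset.sum_congr rfl fun i _ => h4 i
  rw [← h3]
  exact h1

/-- Take `p i b = cnt f i b / (cnt f i false + cnt f i true)` (and `p i b = 1 / 2` if both numbers
vanish) in `Kraft_prod` for `J = univ`, `S = univ`, and the inequality of arithmetic and geometric
means (`Real.inner_le_nnorm_mul_nnorm` is not needed: `Real.geom_mean_le_arith_mean` or the concavity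
of `log`): `∑ v, log (w v) ≤ n * log ((∑ v, w v) / n) ≤ - n * log n`, and
`∑ v, log (w v) = ∑ i, ∑ b, cnt f i b * log (p i b)`. -/
theorem Kraft_log {n d k : ℕ} (hn : 1 ≤ n) (f : Fin n → Fin d → Option Bool)
    (hf : ∀ u v, u ≠ v → 1 ≤ conf (f u) (f v) ∧ conf (f u) (f v) ≤ k) :
    (n : ℝ) * Real.log n ≤ ∑ i, (((cnt f i false : ℝ) + cnt f i true) *
      Real.log ((cnt f i false : ℝ) + cnt f i true) - cnt f i false * Real.log (cnt f i false) -
        cnt f i true * Real.log (cnt f i true)) := by
  classical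
  set T : Fin d → ℝ := fun i => (cnt f i false : ℝ) + cnt f i true with hT
  set p : Fin d → Bool → ℝ := fun i b => if T i = 0 then 1 / 2 else (cnt f i b : ℝ) / T i with hpdef
  have hT0 : ∀ i, 0 ≤ T i := fun i => by positivity
  have hp : ∀ i b, 0 ≤ p i b := by
    intro i b
    simp only [hpdef]
    split_ifs
    · norm_num
    · exact div_nonneg (Nat.cast_nonneg _) (hT0 i)
  have hp1 : ∀ i, p i false + p i true = 1 := by
    intro i
    simp only [hpdef]
    split_ifs with h
    · norm_num
    · rw [← add_div]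
      exact div_self h
  have hsum := Kraft_prod' f p hp hp1 Finset.univ Finset.univ
    (fun u _ v _ huv => (hf u v huv).1)
  set w : Fin n → ℝ := fun v => ∏ i, Kraft_w (p i) (f v i) with hw
  have hcnt : ∀ v i b, f v i = some b → 0 < (cnt f i b : ℝ) := by
    intro v i b hvb
    have : 0 < cnt f i b := by
      unfold cnt
      exact Finset.card_pos.mpr ⟨v, by simp [hvb]⟩
    exact_mod_cast this
  have hTpos : ∀ v i b, f v i = some b → 0 < T i := by
    intro v i b hvb
    have h1 := hcnt v i b hvb
    have h2 : (0 : ℝ) ≤ cnt f i false := Nat.cast_nonneg _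
    have h3 : (0 : ℝ) ≤ cnt f i true := Nat.cast_nonneg _
    cases b
    · simp only [hT]; linarith
    · simp only [hT]; linarith
  have hppos : ∀ v i b, f v i = some b → 0 < p i b := by
    intro v i b hvb
    simp only [hpdef]
    rw [if_neg (hTpos v i b hvb).ne']
    exact div_pos (hcnt v i b hvb) (hTpos v i b hvb)
  have hmpos : ∀ v i, 0 < Kraft_w (p i) (f v i) := by
    intro v i
    rcases hv : f v i with _ | b
    · rw [Kraft_w_none]
      exact one_pos
    · rw [Kraft_w_some]
      exact hppos v i b hv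
  have hwpos : ∀ v, 0 < w v := fun v => Finset.prod_pos fun i _ => hmpos v i
  have hn0 : (0 : ℝ) < n := by exact_mod_cast hn
  -- `log (n * w v) ≤ n * w v - 1`
  have h1 : ∑ v, Real.log (w v) + n * Real.log n ≤ 0 := by
    have h2 : ∀ v, Real.log (w v) + Real.log n ≤ n * w v - 1 := by
      intro v
      rw [← Real.log_mul (hwpos v).ne' hn0.ne', mul_comm (w v) (n : ℝ)]
      exact Real.log_le_sub_one_of_pos (mul_pos hn0 (hwpos v))
    have h3 := Finset.sum_le_sum fun (v : Fin n) (_ : v ∈ Finset.univ) => h2 v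
    rw [Finset.sum_add_distrib, Finset.sum_sub_distrib, ← Finset.mul_sum] at h3
    simp only [Finset.sum_const, Finset.card_univ, Fintype.card_fin, nsmul_eq_mul, mul_one] at h3
    have h4 : (n : ℝ) * ∑ v, w v ≤ n * 1 := mul_le_mul_of_nonneg_left hsum hn0.le
    linarith
  have h5 : ∑ v, Real.log (w v) = ∑ i, ((cnt f i false : ℝ) * Real.log (p i false) +
      (cnt f i true : ℝ) * Real.log (p i true)) := by
    have h6 : ∀ v, Real.log (w v) = ∑ i, Real.log (Kraft_w (p i) (f v i)) := by
      intro v
      simp only [hw]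
      exact Real.log_prod (fun i _ => (hmpos v i).ne')
    simp only [h6]
    rw [Finset.sum_comm]
    refine Finset.sum_congr rfl fun i _ => ?_
    have h7 : ∀ v, Real.log (Kraft_w (p i) (f v i)) =
        (if f v i = some false then 1 else 0) * Real.log (p i false) +
        (if f v i = some true then 1 else 0) * Real.log (p i true) := by
      intro v
      rcases hv : f v i with _ | b
      · rw [Kraft_w_none]
        simp
      · rw [Kraft_w_some]
        cases b <;> simp
    simp only [h7]
    rw [Finset.sum_add_distrib, ← Finset.sum_mul, ← Finset.sum_mul]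
    unfold cnt
    rw [Finset.card_filter, Finset.card_filter]
    push_cast
    rfl
  have h8 : ∀ i b, (cnt f i b : ℝ) * Real.log (p i b) =
      (cnt f i b : ℝ) * Real.log (cnt f i b) - (cnt f i b : ℝ) * Real.log (T i) := by
    intro i b
    rcases Nat.eq_zero_or_pos (cnt f i b) with h0 | h0
    · rw [h0]
      simp
    · have h9 : (0 : ℝ) < cnt f i b := by exact_mod_cast h0
      have h10 : 0 < T i := by
        have h2 : (0 : ℝ) ≤ cnt f i false := Nat.cast_nonneg _
        have h3 : (0 : ℝ) ≤ cnt f i true := Nat.cast_nonneg _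
        cases b
        · simp only [hT]; linarith
        · simp only [hT]; linarith
      simp only [hpdef]
      rw [if_neg h10.ne', Real.log_div h9.ne' h10.ne']
      ring
  have h11 : ∑ i, (((cnt f i false : ℝ) + cnt f i true) *
      Real.log ((cnt f i false : ℝ) + cnt f i true) - cnt f i false * Real.log (cnt f i false) -
        cnt f i true * Real.log (cnt f i true)) = - ∑ v, Real.log (w v) := by
    rw [h5, ← Finset.sum_neg_distrib]
    refine Finset.sum_congr rfl fun i _ => ?_
    rw [h8, h8]
    simp only [hT]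
    ring
  rw [h11]
  linarith

/-- `Kraft_log`, `Bin_le`, the inequality of Cauchy and Schwarz
`∑ i, √(a i * b i) ≤ √(d * ∑ i, a i * b i)`, `Kraft_pairs`: `n log n ≤ 2 log 2 * √(d * k * n ^ 2 / 2)
= log 2 * n * √(2 d k)`. -/
theorem kraft_bound {k d n : ℕ} (h : HasW k d n) : (n : ℝ) ≤ 2 ^ √(2 * (d : ℝ) * k) := by
  obtain ⟨f, hf⟩ := h
  rcases Nat.eq_zero_or_pos n with h0 | hn
  · rw [h0]
    simp only [Nat.cast_zero]
    positivity
  have hn0 : (0 : ℝ) < n := by exact_mod_cast hn
  have h1 := Kraft_log hn f hf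
  have h2 : ∑ i, (((cnt f i false : ℝ) + cnt f i true) *
      Real.log ((cnt f i false : ℝ) + cnt f i true) - cnt f i false * Real.log (cnt f i false) -
        cnt f i true * Real.log (cnt f i true)) ≤
      ∑ i, 2 * Real.log 2 * √((cnt f i false : ℝ) * cnt f i true) :=
    Finset.sum_le_sum fun i _ => Bin_le (Nat.cast_nonneg _) (Nat.cast_nonneg _)
  have h3 : (∑ i, √((cnt f i false : ℝ) * cnt f i true)) ^ 2 ≤ ((d : ℝ) * k * n ^ 2) / 2 := by
    have h4 := sq_sum_le_card_mul_sum_sq (s := (Finset.univ : Finset (Fin d)))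
      (f := fun i => √((cnt f i false : ℝ) * cnt f i true))
    have h5 : ∀ i : Fin d, √((cnt f i false : ℝ) * cnt f i true) ^ 2 =
        (cnt f i false : ℝ) * cnt f i true := fun i => Real.sq_sqrt (by positivity)
    simp only [h5, Finset.card_univ, Fintype.card_fin] at h4
    have h6 := Kraft_pairs f hf
    have h7 : 2 * ∑ i, (cnt f i false : ℝ) * cnt f i true ≤ (k : ℝ) * n ^ 2 := by
      exact_mod_cast h6
    have h8 : (d : ℝ) * (2 * ∑ i, (cnt f i false : ℝ) * cnt f i true) ≤ d * ((k : ℝ) * n ^ 2) :=
      mul_le_mul_of_nonneg_left h7 (Nat.cast_nonneg _)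
    linarith
  have h9 : ∑ i, √((cnt f i false : ℝ) * cnt f i true) ≤ √(2 * (d : ℝ) * k) * n / 2 := by
    refine le_of_sq_le_sq ?_ (by positivity)
    rw [div_pow, mul_pow, Real.sq_sqrt (by positivity)]
    linarith
  rw [← Finset.mul_sum] at h2
  have hl2 : 0 < Real.log 2 := Real.log_pos (by norm_num)
  have h10 : (n : ℝ) * Real.log n ≤ n * (Real.log 2 * √(2 * (d : ℝ) * k)) := by
    have h11 := mul_le_mul_of_nonneg_left h9 (by positivity : (0 : ℝ) ≤ 2 * Real.log 2)
    linarith
  have h12 : Real.log n ≤ Real.log 2 * √(2 * (d : ℝ) * k) := le_of_mul_le_mul_left h10 hn0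
  rw [Real.rpow_def_of_pos (by norm_num : (0 : ℝ) < 2)]
  calc (n : ℝ) = Real.exp (Real.log n) := (Real.exp_log hn0).symm
    _ ≤ Real.exp (Real.log 2 * √(2 * (d : ℝ) * k)) := Real.exp_le_exp.mpr h12

end Pool.Agent.H.MP_602efc_co.Ent
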