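import Mathlib

/-!
# Two estimates for binomial coefficients

Both follow from the two-sided Stirling bounds: with `S n = Stirling.stirlingSeq n` we have
`n ! = S n * √(2 n) * (n / e) ^ n` and `√π ≤ S n ≤ S 1 = e / √2` for `n ≥ 1`
(`Stirling.stirlingSeq'_antitone`, `Stirling.sqrt_pi_le_stirlingSeq`).
-/

open Finset

namespace Pool.Agent.H.MP_602efc_co.Ent

theorem fact_low (n : ℕ) : 2 * √(n : ℝ) * (n : ℝ) ^ n ≤ (n.factorial : ℝ) * Real.exp 1 ^ n := by
  have h := Stirling.le_factorial_stirling n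
  have he : (0 : ℝ) < Real.exp 1 ^ n := by positivity
  rw [div_pow, mul_div_assoc', div_le_iff₀ he] at h
  refine le_trans ?_ h
  refine mul_le_mul_of_nonneg_right ?_ (by positivity)
  have h4 : (2 : ℝ) * √(n : ℝ) = √(4 * n) := by
    rw [Real.sqrt_mul (by norm_num), show (4 : ℝ) = 2 ^ 2 by norm_num, Real.sqrt_sq (by norm_num)]
  rw [h4]
  apply Real.sqrt_le_sqrt
  have := Real.pi_gt_three
  have hn : (0 : ℝ) ≤ n := Nat.cast_nonneg n
  nlinarith

theorem fact_up (n : ℕ) (hn : 1 ≤ n) :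
    (n.factorial : ℝ) * Real.exp 1 ^ n ≤ 3 * √(n : ℝ) * (n : ℝ) ^ n := by
  obtain ⟨k, rfl⟩ : ∃ k, n = k + 1 := ⟨n - 1, by omega⟩
  have h : Stirling.stirlingSeq (k + 1) ≤ Stirling.stirlingSeq 1 :=
    Stirling.stirlingSeq'_antitone (Nat.zero_le k)
  rw [Stirling.stirlingSeq_one, Stirling.stirlingSeq, div_le_iff₀ (by positivity)] at h
  have he : (0 : ℝ) < Real.exp 1 ^ (k + 1) := by positivity
  rw [div_pow, mul_div_assoc', mul_div_assoc', le_div_iff₀ he] at h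
  refine h.trans ?_
  have h2 : √(2 * ((k + 1 : ℕ) : ℝ)) = √2 * √((k + 1 : ℕ) : ℝ) :=
    Real.sqrt_mul (by norm_num) _
  have h3 : Real.exp 1 / √2 * (√(2 * ((k + 1 : ℕ) : ℝ)) * ((k + 1 : ℕ) : ℝ) ^ (k + 1)) =
      Real.exp 1 * √((k + 1 : ℕ) : ℝ) * ((k + 1 : ℕ) : ℝ) ^ (k + 1) := by
    rw [h2]
    field_simp
  rw [h3]
  have he3 : Real.exp 1 ≤ 3 := Real.exp_one_lt_three.le
  gcongr

theorem choose_fact (m i : ℕ) (hi : i ≤ m) :
    (m.factorial : ℝ) * Real.exp 1 ^ m =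
      (m.choose i : ℝ) * (((i.factorial : ℝ) * Real.exp 1 ^ i) *
        (((m - i).factorial : ℝ) * Real.exp 1 ^ (m - i))) := by
  have h1 : (m.choose i : ℝ) * (i.factorial : ℝ) * ((m - i).factorial : ℝ) = (m.factorial : ℝ) := by
    exact_mod_cast Nat.choose_mul_factorial_mul_factorial hi
  have h2 : Real.exp 1 ^ i * Real.exp 1 ^ (m - i) = Real.exp 1 ^ m := by
    rw [← pow_add, Nat.add_sub_cancel' hi]
  rw [← h1, ← h2]
  ring

/-- **Lower bound for a binomial coefficient.** With `q = r / (d - r)` we have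
`(1 + q) ^ d / q ^ r = d ^ d / (r ^ r * (d - r) ^ (d - r))`. By Stirling
`d.choose r ≥ (√(2 π) / e ^ 2) * √(d / (r (d - r))) * d ^ d / (r ^ r (d - r) ^ (d - r))`, and
`r (d - r) ≤ d ^ 2 / 4`. -/
theorem Stir_low : ∃ c : ℝ, 0 < c ∧ ∀ d r : ℕ, 1 ≤ r → r < d →
    (1 + (r : ℝ) / ((d : ℝ) - r)) ^ d ≤
      c * √d * (((r : ℝ) / ((d : ℝ) - r)) ^ r * (d.choose r : ℝ)) := by
  refine ⟨9 / 4, by norm_num, fun d r hr hrd => ?_⟩
  obtain ⟨s, rfl⟩ : ∃ s, d = r + s := ⟨d - r, by omega⟩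
  have hs : 1 ≤ s := by omega
  have hr0 : (0 : ℝ) < r := by exact_mod_cast hr
  have hs0 : (0 : ℝ) < s := by exact_mod_cast hs
  have hd : ((r + s : ℕ) : ℝ) - r = s := by push_cast; ring
  rw [hd]
  have h1 := fact_low (r + s)
  rw [choose_fact (r + s) r (by omega), show r + s - r = s by omega] at h1
  have h2 := fact_up r hr
  have h3 := fact_up s hs
  have h4 : ((r.factorial : ℝ) * Real.exp 1 ^ r) * ((s.factorial : ℝ) * Real.exp 1 ^ s) ≤
      (3 * √(r : ℝ) * (r : ℝ) ^ r) * (3 * √(s : ℝ) * (s : ℝ) ^ s) := by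
    gcongr
  have h5 : 2 * √((r + s : ℕ) : ℝ) * ((r + s : ℕ) : ℝ) ^ (r + s) ≤
      ((r + s).choose r : ℝ) * ((3 * √(r : ℝ) * (r : ℝ) ^ r) * (3 * √(s : ℝ) * (s : ℝ) ^ s)) :=
    h1.trans (by gcongr)
  have h6 : √(r : ℝ) * √(s : ℝ) ≤ ((r + s : ℕ) : ℝ) / 2 := by
    rw [← Real.sqrt_mul hr0.le]
    apply Real.sqrt_le_iff.mpr
    constructor
    · positivity
    · push_cast
      nlinarith [sq_nonneg ((r : ℝ) - s)]
  have hD : (0 : ℝ) < ((r + s : ℕ) : ℝ) := by positivity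
  have hsd : √((r + s : ℕ) : ℝ) * √((r + s : ℕ) : ℝ) = ((r + s : ℕ) : ℝ) :=
    Real.mul_self_sqrt hD.le
  have hsp : (0 : ℝ) < √((r + s : ℕ) : ℝ) := Real.sqrt_pos.mpr hD
  -- `d ^ d ≤ (9 / 4) √d r ^ r s ^ s choose`
  have h7 : ((r + s : ℕ) : ℝ) ^ (r + s) ≤
      9 / 4 * √((r + s : ℕ) : ℝ) * ((r : ℝ) ^ r * (s : ℝ) ^ s * ((r + s).choose r : ℝ)) := by
    have h8 : ((r + s).choose r : ℝ) *
        ((3 * √(r : ℝ) * (r : ℝ) ^ r) * (3 * √(s : ℝ) * (s : ℝ) ^ s)) ≤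
        9 * (((r + s : ℕ) : ℝ) / 2) * ((r : ℝ) ^ r * (s : ℝ) ^ s * ((r + s).choose r : ℝ)) := by
      have : ((r + s).choose r : ℝ) *
        ((3 * √(r : ℝ) * (r : ℝ) ^ r) * (3 * √(s : ℝ) * (s : ℝ) ^ s)) =
        9 * (√(r : ℝ) * √(s : ℝ)) * ((r : ℝ) ^ r * (s : ℝ) ^ s * ((r + s).choose r : ℝ)) := by
        ring
      rw [this]
      gcongr
    have h9 := h5.trans h8
    have h10 : 2 * √((r + s : ℕ) : ℝ) * ((r + s : ℕ) : ℝ) ^ (r + s) ≤
        2 * √((r + s : ℕ) : ℝ) * (9 / 4 * √((r + s : ℕ) : ℝ) *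
          ((r : ℝ) ^ r * (s : ℝ) ^ s * ((r + s).choose r : ℝ))) := by
      refine h9.trans (le_of_eq ?_)
      calc 9 * (((r + s : ℕ) : ℝ) / 2) * ((r : ℝ) ^ r * (s : ℝ) ^ s * ((r + s).choose r : ℝ))
          = 9 / 2 * (√((r + s : ℕ) : ℝ) * √((r + s : ℕ) : ℝ)) *
            ((r : ℝ) ^ r * (s : ℝ) ^ s * ((r + s).choose r : ℝ)) := by rw [hsd]; ring
        _ = _ := by ring
    exact le_of_mul_le_mul_left h10 (by positivity)
  have e1 : 1 + (r : ℝ) / s = ((r + s : ℕ) : ℝ) / s := by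
    push_cast
    field_simp
    ring
  rw [e1, div_pow, div_pow, div_le_iff₀ (by positivity)]
  refine h7.trans (le_of_eq ?_)
  rw [pow_add (s : ℝ) r s]
  field_simp

theorem amgm (q : ℝ) (hq : 0 < q) (a b : ℕ) (ha : 1 ≤ a) (hb : 1 ≤ b) :
    ((a + b : ℕ) : ℝ) ^ (a + b) * q ^ a ≤ (1 + q) ^ (a + b) * ((a : ℝ) ^ a * (b : ℝ) ^ b) := by
  have ha0 : (0 : ℝ) < a := by exact_mod_cast ha
  have hb0 : (0 : ℝ) < b := by exact_mod_cast hb
  have hm : (0 : ℝ) < ((a + b : ℕ) : ℝ) := by positivity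
  set m : ℝ := ((a + b : ℕ) : ℝ) with hmdef
  have hmab : m = a + b := by rw [hmdef]; push_cast; ring
  have h1 : Real.log (m * q / (a * (1 + q))) ≤ m * q / (a * (1 + q)) - 1 :=
    Real.log_le_sub_one_of_pos (by positivity)
  have h2 : Real.log (m / (b * (1 + q))) ≤ m / (b * (1 + q)) - 1 :=
    Real.log_le_sub_one_of_pos (by positivity)
  have h3 : (a : ℝ) * Real.log (m * q / (a * (1 + q))) + b * Real.log (m / (b * (1 + q))) ≤ 0 := by
    have h4 := mul_le_mul_of_nonneg_left h1 ha0.le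
    have h5 := mul_le_mul_of_nonneg_left h2 hb0.le
    have h6 : (a : ℝ) * (m * q / (a * (1 + q)) - 1) + b * (m / (b * (1 + q)) - 1) = 0 := by
      rw [hmab]
      field_simp
      ring
    linarith
  have h7 : (m * q / (a * (1 + q))) ^ a * (m / (b * (1 + q))) ^ b ≤ 1 := by
    have hp : 0 < (m * q / (a * (1 + q))) ^ a * (m / (b * (1 + q))) ^ b := by positivity
    rw [← Real.log_nonpos_iff hp.le, Real.log_mul (by positivity) (by positivity), Real.log_pow,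
      Real.log_pow]
    exact h3
  have h8 : m ^ (a + b) * q ^ a = ((m * q / (a * (1 + q))) ^ a * (m / (b * (1 + q))) ^ b) *
      ((1 + q) ^ (a + b) * ((a : ℝ) ^ a * (b : ℝ) ^ b)) := by
    rw [div_pow, div_pow, mul_pow, mul_pow, mul_pow, pow_add, pow_add]
    field_simp
  rw [h8]
  exact mul_le_of_le_one_left (by positivity) h7

/-- **Upper bound for the terms of a binomial sum.** Let `i` be an index at which
`t i = m.choose i * q ^ i` is largest. Comparing with the neighbours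
(`t (i + 1) * (i + 1) = t i * (m - i) * q`), `m q - 1 ≤ (1 + q) i ≤ (m + 1) q`, so for `m ≥ m₀ (q₀)`
both `i` and `m - i` are at least `c m`. By Stirling
`m.choose i ≤ (e / (2 π)) * √(m / (i (m - i))) * m ^ m / (i ^ i (m - i) ^ (m - i))`, and
`m ^ m * q ^ i ≤ (1 + q) ^ m * i ^ i * (m - i) ^ (m - i)` by the weighted inequality of arithmetic and
geometric means (`Real.geom_mean_le_arith_mean2_weighted` with the weights `i / m`, `(m - i) / m`).
For `m < m₀` use `t i ≤ (1 + q) ^ m`. (Another proof: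
`m.choose i * q ^ i = ∑ M, m.choose M * (1 - q) ^ (m - M) * q ^ M * M.choose i`,
`M.choose i ≤ C * 2 ^ M / √(M + 1)`, and the inequality of Cauchy and Schwarz with
`m.choose M / (M + 1) = (m + 1).choose (M + 1) / (m + 1)`.) -/
theorem Stir_up (q₀ : ℝ) (h₀ : 0 < q₀) : ∃ B : ℝ, 0 < B ∧ ∀ q : ℝ, q₀ ≤ q → q ≤ 1 →
    ∀ m i : ℕ, 1 ≤ m → (m.choose i : ℝ) * q ^ i ≤ B * ((1 + q) ^ m / √m) := by
  refine ⟨3 / √q₀ + √(4 / q₀), by positivity, fun q hq₀ hq₁ m i hm => ?_⟩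
  have hq : 0 < q := lt_of_lt_of_le h₀ hq₀
  have hm0 : (0 : ℝ) < m := by exact_mod_cast hm
  have hmq : (0 : ℝ) < (1 + q) ^ m / √m := by positivity
  -- the trivial bound
  have htriv : ∀ j : ℕ, (m.choose j : ℝ) * q ^ j ≤ (1 + q) ^ m := by
    intro j
    rcases lt_or_ge m j with hj | hj
    · rw [Nat.choose_eq_zero_of_lt hj]
      simp only [Nat.cast_zero, zero_mul]
      positivity
    · rw [add_comm, add_pow]
      have h1 : (m.choose j : ℝ) * q ^ j = q ^ j * 1 ^ (m - j) * (m.choose j : ℝ) := by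
        rw [one_pow]; ring
      rw [h1]
      exact Finset.single_le_sum (f := fun j => q ^ j * 1 ^ (m - j) * (m.choose j : ℝ))
        (fun k _ => by positivity) (Finset.mem_range.mpr (by omega))
  rcases lt_or_ge (m : ℝ) (4 / q₀) with hsmall | hbig
  · refine (htriv i).trans ?_
    rw [mul_div_assoc', le_div_iff₀ (by positivity), mul_comm]
    refine mul_le_mul_of_nonneg_right ?_ (by positivity)
    have h1 : √(m : ℝ) ≤ √(4 / q₀) := Real.sqrt_le_sqrt hsmall.le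
    have h2 : (0 : ℝ) ≤ 3 / √q₀ := by positivity
    linarith
  · -- the largest term
    obtain ⟨k, hk, hmax⟩ := Finset.exists_max_image (Finset.range (m + 1))
      (fun j => (m.choose j : ℝ) * q ^ j) ⟨0, by simp⟩
    have hkm : k ≤ m := by
      have := Finset.mem_range.mp hk
      omega
    have hmax' : ∀ j : ℕ, (m.choose j : ℝ) * q ^ j ≤ (m.choose k : ℝ) * q ^ k := by
      intro j
      rcases lt_or_ge m j with hj | hj
      · rw [Nat.choose_eq_zero_of_lt hj]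
        simp only [Nat.cast_zero, zero_mul]
        positivity
      · exact hmax j (Finset.mem_range.mpr (by omega))
    refine (hmax' i).trans ?_
    have hck : (0 : ℝ) < (m.choose k : ℝ) := by exact_mod_cast Nat.choose_pos hkm
    have hcast : ((m - k : ℕ) : ℝ) = (m : ℝ) - k := by
      rw [Nat.cast_sub hkm]
    -- lower bound for `k`
    have hlo : (m : ℝ) * q - 1 ≤ (1 + q) * k := by
      have h1 := hmax' (k + 1)
      have h2 : (m.choose (k + 1) : ℝ) * ((k : ℝ) + 1) = (m.choose k : ℝ) * ((m : ℝ) - k) := by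
        have := Nat.choose_succ_right_eq m k
        rw [← hcast]
        exact_mod_cast this
      have h3 : (m.choose k : ℝ) * q ^ k * (((m : ℝ) - k) * q) ≤
          (m.choose k : ℝ) * q ^ k * ((k : ℝ) + 1) := by
        calc (m.choose k : ℝ) * q ^ k * (((m : ℝ) - k) * q)
            = (m.choose k : ℝ) * ((m : ℝ) - k) * q ^ (k + 1) := by ring
          _ = (m.choose (k + 1) : ℝ) * q ^ (k + 1) * ((k : ℝ) + 1) := by rw [← h2]; ring
          _ ≤ _ := by gcongr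
      have h4 := le_of_mul_le_mul_left h3 (by positivity)
      linarith
    -- upper bound for `k`
    have hup : (1 + q) * k ≤ ((m : ℝ) + 1) * q := by
      rcases Nat.eq_zero_or_pos k with hk0 | hk0
      · rw [hk0]
        simp only [Nat.cast_zero, mul_zero]
        positivity
      · obtain ⟨l, rfl⟩ : ∃ l, k = l + 1 := ⟨k - 1, by omega⟩
        have h1 := hmax' l
        have hlm : l ≤ m := by omega
        have h2 : (m.choose (l + 1) : ℝ) * ((l : ℝ) + 1) = (m.choose l : ℝ) * ((m : ℝ) - l) := by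
          have := Nat.choose_succ_right_eq m l
          have hc : ((m - l : ℕ) : ℝ) = (m : ℝ) - l := by rw [Nat.cast_sub hlm]
          rw [← hc]
          exact_mod_cast this
        have hml : (0 : ℝ) ≤ (m : ℝ) - l := by
          have : (l : ℝ) ≤ m := by exact_mod_cast hlm
          linarith
        have h3 : (m.choose (l + 1) : ℝ) * q ^ (l + 1) * ((l : ℝ) + 1) ≤
            (m.choose (l + 1) : ℝ) * q ^ (l + 1) * (((m : ℝ) - l) * q) := by
          calc (m.choose (l + 1) : ℝ) * q ^ (l + 1) * ((l : ℝ) + 1)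
              = (m.choose (l + 1) : ℝ) * ((l : ℝ) + 1) * q ^ (l + 1) := by ring
            _ = ((m.choose l : ℝ) * q ^ l) * (((m : ℝ) - l) * q) := by rw [h2]; ring
            _ ≤ _ := by gcongr
        have h4 := le_of_mul_le_mul_left h3 (by positivity)
        push_cast
        linarith
    have hmq4 : 4 ≤ (m : ℝ) * q := by
      rw [div_le_iff₀ h₀] at hbig
      nlinarith
    have hk1 : (m : ℝ) * q₀ * 3 / 8 ≤ k := by nlinarith
    have hk2 : (m : ℝ) * 3 / 8 ≤ (m : ℝ) - k := by nlinarith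
    have hkpos : 1 ≤ k := by
      have : (0 : ℝ) < k := lt_of_lt_of_le (by positivity) hk1
      exact_mod_cast this
    obtain ⟨s, rfl⟩ : ∃ s, m = k + s := ⟨m - k, by omega⟩
    have hks : ((k + s : ℕ) : ℝ) - k = s := by push_cast; ring
    rw [hks] at hk2
    have hspos : 1 ≤ s := by
      have : (0 : ℝ) < s := lt_of_lt_of_le (by positivity) hk2
      exact_mod_cast this
    have hk0 : (0 : ℝ) < k := by exact_mod_cast hkpos
    have hs0 : (0 : ℝ) < s := by exact_mod_cast hspos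
    have f1 := fact_up (k + s) (by omega)
    rw [choose_fact (k + s) k (by omega), show k + s - k = s by omega] at f1
    have f2 := fact_low k
    have f3 := fact_low s
    have f4 : (2 * √(k : ℝ) * (k : ℝ) ^ k) * (2 * √(s : ℝ) * (s : ℝ) ^ s) ≤
        ((k.factorial : ℝ) * Real.exp 1 ^ k) * ((s.factorial : ℝ) * Real.exp 1 ^ s) := by
      gcongr
    have f5 : ((k + s).choose k : ℝ) *
        ((2 * √(k : ℝ) * (k : ℝ) ^ k) * (2 * √(s : ℝ) * (s : ℝ) ^ s)) ≤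
        3 * √((k + s : ℕ) : ℝ) * ((k + s : ℕ) : ℝ) ^ (k + s) :=
      le_trans (by gcongr) f1
    have f6 := amgm q hq k s hkpos hspos
    -- multiply by `q ^ k`
    have f7 : (((k + s).choose k : ℝ) * q ^ k) * (4 * (√(k : ℝ) * √(s : ℝ))) *
        ((k : ℝ) ^ k * (s : ℝ) ^ s) ≤
        (3 * √((k + s : ℕ) : ℝ) * (1 + q) ^ (k + s)) * ((k : ℝ) ^ k * (s : ℝ) ^ s) := by
      calc (((k + s).choose k : ℝ) * q ^ k) * (4 * (√(k : ℝ) * √(s : ℝ))) *
            ((k : ℝ) ^ k * (s : ℝ) ^ s)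
          = (((k + s).choose k : ℝ) *
            ((2 * √(k : ℝ) * (k : ℝ) ^ k) * (2 * √(s : ℝ) * (s : ℝ) ^ s))) * q ^ k := by ring
        _ ≤ (3 * √((k + s : ℕ) : ℝ) * ((k + s : ℕ) : ℝ) ^ (k + s)) * q ^ k := by gcongr
        _ = 3 * √((k + s : ℕ) : ℝ) * (((k + s : ℕ) : ℝ) ^ (k + s) * q ^ k) := by ring
        _ ≤ 3 * √((k + s : ℕ) : ℝ) * ((1 + q) ^ (k + s) * ((k : ℝ) ^ k * (s : ℝ) ^ s)) := by
            gcongr
        _ = _ := by ring
    have f8 : (((k + s).choose k : ℝ) * q ^ k) * (4 * (√(k : ℝ) * √(s : ℝ))) ≤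
        3 * √((k + s : ℕ) : ℝ) * (1 + q) ^ (k + s) :=
      le_of_mul_le_mul_right f7 (by positivity)
    -- `√k √s ≥ (3 / 8) m √q₀`
    have g1 : (3 / 8 : ℝ) * ((k + s : ℕ) : ℝ) * √q₀ ≤ √(k : ℝ) * √(s : ℝ) := by
      rw [← Real.sqrt_mul hk0.le]
      apply Real.le_sqrt_of_sq_le
      have hsq : √q₀ ^ 2 = q₀ := Real.sq_sqrt h₀.le
      calc ((3 / 8 : ℝ) * ((k + s : ℕ) : ℝ) * √q₀) ^ 2
          = (((k + s : ℕ) : ℝ) * q₀ * 3 / 8) * (((k + s : ℕ) : ℝ) * 3 / 8) := by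
            rw [mul_pow, hsq]; ring
        _ ≤ (k : ℝ) * s := by gcongr
    have hM : (0 : ℝ) < ((k + s : ℕ) : ℝ) := hm0
    have hsM : (0 : ℝ) < √((k + s : ℕ) : ℝ) := Real.sqrt_pos.mpr hM
    have hsMM : √((k + s : ℕ) : ℝ) * √((k + s : ℕ) : ℝ) = ((k + s : ℕ) : ℝ) :=
      Real.mul_self_sqrt hM.le
    have hsq0 : (0 : ℝ) < √q₀ := Real.sqrt_pos.mpr h₀
    have g2 : (((k + s).choose k : ℝ) * q ^ k) * (4 * ((3 / 8 : ℝ) * ((k + s : ℕ) : ℝ) * √q₀)) ≤
        3 * √((k + s : ℕ) : ℝ) * (1 + q) ^ (k + s) :=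
      le_trans (by gcongr) f8
    have g3 : ((k + s).choose k : ℝ) * q ^ k ≤
        3 / √q₀ * ((1 + q) ^ (k + s) / √((k + s : ℕ) : ℝ)) := by
      rw [div_mul_div_comm, le_div_iff₀ (by positivity)]
      have g4 : (((k + s).choose k : ℝ) * q ^ k) * (4 * ((3 / 8 : ℝ) * ((k + s : ℕ) : ℝ) * √q₀)) =
          √((k + s : ℕ) : ℝ) * (3 / 2 * ((((k + s).choose k : ℝ) * q ^ k) *
            (√q₀ * √((k + s : ℕ) : ℝ)))) := by
        calc (((k + s).choose k : ℝ) * q ^ k) * (4 * ((3 / 8 : ℝ) * ((k + s : ℕ) : ℝ) * √q₀))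
            = (((k + s).choose k : ℝ) * q ^ k) * (4 * ((3 / 8 : ℝ) *
              (√((k + s : ℕ) : ℝ) * √((k + s : ℕ) : ℝ)) * √q₀)) := by rw [hsMM]
          _ = _ := by ring
      rw [g4, show 3 * √((k + s : ℕ) : ℝ) * (1 + q) ^ (k + s) =
        √((k + s : ℕ) : ℝ) * (3 * (1 + q) ^ (k + s)) by ring] at g2
      have g5 := le_of_mul_le_mul_left g2 hsM
      have g6 : 0 ≤ (((k + s).choose k : ℝ) * q ^ k) * (√q₀ * √((k + s : ℕ) : ℝ)) := by positivity
      linarith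
    refine g3.trans ?_
    refine mul_le_mul_of_nonneg_right ?_ hmq.le
    have : (0 : ℝ) ≤ √(4 / q₀) := Real.sqrt_nonneg _
    linarith

end Pool.Agent.H.MP_602efc_co.Ent
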