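import Mathlib

/-!
# An inequality for two families of pairwise conflicting words

Words are functions to `Option Bool` (`none` is the letter `*`). If the weights satisfy
`α u * β v ≤ q ^ N(u,v)`, `N` the number of conflicts, then
`(∑ ρ ^ s(u) α u) (∑ ρ ^ s(v) β v) ≤ (1 + q) ^ (2 d)` with `ρ = (1 + q) ^ 2 / 2` and `s` the number of
stars, for any two families of pairwise conflicting words of length `d`.
-/

open Finset

namespace Pool.Agent.H.MP_602efc_co.Ent

/-- The inequality for one coordinate, first case. -/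
theorem step_aux1 (q a₀ a₁ a b₀ b₁ b M : ℝ) (hq : 0 < q) (hq1 : q ≤ 1) (ha₀ : 0 ≤ a₀)
    (ha₁ : 0 ≤ a₁) (ha : 0 ≤ a) (hb₀ : 0 ≤ b₀) (hb₁ : 0 ≤ b₁) (hb : 0 ≤ b) (hM : 0 ≤ M)
    (h1 : (a₀ + a) * (b₀ + b) ≤ M) (h3 : (a₀ + q * a) * (b₁ + q * b) ≤ q * M)
    (hc : a₁ ≤ q * a₀) :
    (a₀ + a₁ + (1 + q) ^ 2 / 2 * a) * (b₀ + b₁ + (1 + q) ^ 2 / 2 * b) ≤ (1 + q) ^ 2 * M := by
  have hA : a₀ + a₁ + (1 + q) ^ 2 / 2 * a ≤ (1 + q) * a₀ + (1 + q) ^ 2 / 2 * a := by nlinarith
  have hB : b₀ + b₁ + (1 + q) ^ 2 / 2 * b ≤ (b₀ + b) + (b₁ + q * b) := by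
    have h9 : 0 ≤ b * ((1 + q) * (1 - q) / 2) :=
      mul_nonneg hb (div_nonneg (mul_nonneg (by linarith) (by linarith)) (by norm_num))
    nlinarith
  rcases eq_or_lt_of_le (add_nonneg ha₀ ha) with h0 | h0
  · have h5 : a₀ = 0 := by linarith
    have h6 : a = 0 := by linarith
    have h7 : a₁ = 0 := by nlinarith
    rw [h5, h6, h7]
    nlinarith [mul_nonneg (sq_nonneg (1 + q)) hM]
  · have hQ : 0 < a₀ + q * a := by
      rcases eq_or_lt_of_le ha₀ with h | h
      · have : 0 < a := by linarith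
        rw [← h]
        nlinarith [mul_pos hq this]
      · nlinarith [mul_nonneg hq.le ha]
    have hX : b₀ + b ≤ M / (a₀ + a) := by
      rw [le_div_iff₀ h0]
      linarith
    have hU : b₁ + q * b ≤ q * M / (a₀ + q * a) := by
      rw [le_div_iff₀ hQ]
      linarith
    have hA0 : 0 ≤ a₀ + a₁ + (1 + q) ^ 2 / 2 * a := by positivity
    calc (a₀ + a₁ + (1 + q) ^ 2 / 2 * a) * (b₀ + b₁ + (1 + q) ^ 2 / 2 * b)
        ≤ ((1 + q) * a₀ + (1 + q) ^ 2 / 2 * a) * (M / (a₀ + a) + q * M / (a₀ + q * a)) := by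
          apply mul_le_mul hA (hB.trans (add_le_add hX hU)) (by positivity) (by positivity)
      _ ≤ (1 + q) ^ 2 * M := by
          rw [div_add_div _ _ h0.ne' hQ.ne', ← mul_div_assoc, div_le_iff₀ (mul_pos h0 hQ)]
          have key : (1 + q) ^ 2 * M * ((a₀ + a) * (a₀ + q * a)) -
              ((1 + q) * a₀ + (1 + q) ^ 2 / 2 * a) * (M * (a₀ + q * a) + (a₀ + a) * (q * M)) =
              M * (a₀ * a * ((1 + q) * (1 - q) ^ 2 / 2)) := by ring
          have : 0 ≤ M * (a₀ * a * ((1 + q) * (1 - q) ^ 2 / 2)) := by positivity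
          linarith

/-- The inequality for one coordinate, second case. -/
theorem step_aux2 (q a₀ a₁ a b₀ b₁ b M : ℝ) (hq : 0 < q) (hq1 : q ≤ 1) (ha₀ : 0 ≤ a₀)
    (ha₁ : 0 ≤ a₁) (ha : 0 ≤ a) (hb₀ : 0 ≤ b₀) (hb₁ : 0 ≤ b₁) (hb : 0 ≤ b) (hM : 0 ≤ M)
    (h1 : (a₀ + a) * (b₀ + b) ≤ M) (h3 : (a₀ + q * a) * (b₁ + q * b) ≤ q * M)
    (h4 : (a₁ + q * a) * (b₀ + q * b) ≤ q * M)
    (hc : q * a₀ ≤ a₁) (hc' : a₁ ≤ a₀) :
    (a₀ + a₁ + (1 + q) ^ 2 / 2 * a) * (b₀ + b₁ + (1 + q) ^ 2 / 2 * b) ≤ (1 + q) ^ 2 * M := by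
  rcases eq_or_lt_of_le (add_nonneg ha₀ ha) with h0 | h0
  · have h5 : a₀ = 0 := by linarith
    have h6 : a = 0 := by linarith
    have h7 : a₁ = 0 := by linarith
    rw [h5, h6, h7]
    nlinarith [mul_nonneg (sq_nonneg (1 + q)) hM]
  · have hR : 0 < a₁ + q * a := by
      have : 0 < q * (a₀ + a) := mul_pos hq h0
      nlinarith
    have hQ : 0 < a₀ + q * a := by linarith
    have hX : b₀ + b ≤ M / (a₀ + a) := by
      rw [le_div_iff₀ h0]
      linarith
    have hU : b₁ + q * b ≤ q * M / (a₀ + q * a) := by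
      rw [le_div_iff₀ hQ]
      linarith
    have hV : b₀ + q * b ≤ q * M / (a₁ + q * a) := by
      rw [le_div_iff₀ hR]
      linarith
    have hB : b₀ + b₁ + (1 + q) ^ 2 / 2 * b ≤ q * M / (a₀ + q * a) +
        (1 + q) / 2 * (q * M / (a₁ + q * a)) + (1 - q) / 2 * (M / (a₀ + a)) := by
      have e : b₀ + b₁ + (1 + q) ^ 2 / 2 * b = (b₁ + q * b) + (1 + q) / 2 * (b₀ + q * b) +
          (1 - q) / 2 * (b₀ + b) := by ring
      rw [e]
      have h8 : (1 + q) / 2 * (b₀ + q * b) ≤ (1 + q) / 2 * (q * M / (a₁ + q * a)) :=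
        mul_le_mul_of_nonneg_left hV (by positivity)
      have h9 : (1 - q) / 2 * (b₀ + b) ≤ (1 - q) / 2 * (M / (a₀ + a)) :=
        mul_le_mul_of_nonneg_left hX (by linarith)
      linarith
    refine (mul_le_mul_of_nonneg_left hB (by positivity)).trans ?_
    have e2 : q * M / (a₀ + q * a) + (1 + q) / 2 * (q * M / (a₁ + q * a)) +
        (1 - q) / 2 * (M / (a₀ + a)) =
        M * (2 * q * (a₁ + q * a) * (a₀ + a) + q * (1 + q) * (a₀ + q * a) * (a₀ + a) +
          (1 - q) * (a₀ + q * a) * (a₁ + q * a)) /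
          (2 * ((a₀ + q * a) * (a₁ + q * a) * (a₀ + a))) := by
      field_simp
    rw [e2, ← mul_div_assoc, div_le_iff₀ (by positivity)]
    have key : (1 + q) ^ 2 * M * (2 * ((a₀ + q * a) * (a₁ + q * a) * (a₀ + a))) -
        (a₀ + a₁ + (1 + q) ^ 2 / 2 * a) * (M * (2 * q * (a₁ + q * a) * (a₀ + a) +
          q * (1 + q) * (a₀ + q * a) * (a₀ + a) + (1 - q) * (a₀ + q * a) * (a₁ + q * a))) =
        M * ((1 + q) * (a₀ - a₁) * (a₁ - q * a₀) * a₀ +
          (q * (1 + q) * (1 - q) * (a₀ - a₁) * a₀ +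
            (1 - q) ^ 2 * (3 + q) / 2 * (a₁ - q * a₀) * a₀ +
            q * (3 - q) * (a₁ - q * a₀) * (a₀ - a₁)) * a +
          q * ((1 + q) * (1 - q) * (a₀ - a₁) + (1 - q) ^ 2 * (3 + q) / 2 * (a₁ - q * a₀)) *
            a ^ 2) := by ring
    have h10 : 0 ≤ a₀ - a₁ := by linarith
    have h11 : 0 ≤ a₁ - q * a₀ := by linarith
    have h12 : 0 ≤ 1 - q := by linarith
    have h13 : 0 ≤ 3 - q := by linarith
    have : 0 ≤ M * ((1 + q) * (a₀ - a₁) * (a₁ - q * a₀) * a₀ +
          (q * (1 + q) * (1 - q) * (a₀ - a₁) * a₀ +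
            (1 - q) ^ 2 * (3 + q) / 2 * (a₁ - q * a₀) * a₀ +
            q * (3 - q) * (a₁ - q * a₀) * (a₀ - a₁)) * a +
          q * ((1 + q) * (1 - q) * (a₀ - a₁) + (1 - q) ^ 2 * (3 + q) / 2 * (a₁ - q * a₀)) *
            a ^ 2) := by positivity
    linarith

/-- The inequality for one coordinate. -/
theorem step (q a₀ a₁ a b₀ b₁ b M : ℝ) (hq : 0 < q) (hq1 : q ≤ 1) (ha₀ : 0 ≤ a₀)
    (ha₁ : 0 ≤ a₁) (ha : 0 ≤ a) (hb₀ : 0 ≤ b₀) (hb₁ : 0 ≤ b₁) (hb : 0 ≤ b) (hM : 0 ≤ M)
    (h1 : (a₀ + a) * (b₀ + b) ≤ M) (h2 : (a₁ + a) * (b₁ + b) ≤ M)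
    (h3 : (a₀ + q * a) * (b₁ + q * b) ≤ q * M) (h4 : (a₁ + q * a) * (b₀ + q * b) ≤ q * M) :
    (a₀ + a₁ + (1 + q) ^ 2 / 2 * a) * (b₀ + b₁ + (1 + q) ^ 2 / 2 * b) ≤ (1 + q) ^ 2 * M := by
  rcases le_total a₁ a₀ with h | h
  · rcases le_total a₁ (q * a₀) with h' | h'
    · exact step_aux1 q a₀ a₁ a b₀ b₁ b M hq hq1 ha₀ ha₁ ha hb₀ hb₁ hb hM h1 h3 h'
    · exact step_aux2 q a₀ a₁ a b₀ b₁ b M hq hq1 ha₀ ha₁ ha hb₀ hb₁ hb hM h1 h3 h4 h' h
  · rw [add_comm a₀ a₁, add_comm b₀ b₁]
    rcases le_total a₀ (q * a₁) with h' | h'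
    · exact step_aux1 q a₁ a₀ a b₁ b₀ b M hq hq1 ha₁ ha₀ ha hb₁ hb₀ hb hM h2 h4 h'
    · exact step_aux2 q a₁ a₀ a b₁ b₀ b M hq hq1 ha₁ ha₀ ha hb₁ hb₀ hb hM h2 h4 h3 h' h

theorem notconf {a b : Option Bool} {y : Bool} (ha : a ≠ some y) (hb : b ≠ some y) :
    ¬ (a ≠ none ∧ b ≠ none ∧ a ≠ b) := by
  revert a b y
  decide

theorem isconf {a b : Option Bool} {y : Bool} (ha : a ≠ some (!y)) (hb : b ≠ some y)
    (h1 : a ≠ none) (h2 : b ≠ none) : a ≠ b := by
  revert a b y
  decide

variable {δ ι κ : Type*}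

/-- The number of coordinates in `J` at which the words `u` and `v` are in conflict. -/
def cf (J : Finset δ) (u v : δ → Option Bool) : ℕ :=
  ∑ i ∈ J, if u i ≠ none ∧ v i ≠ none ∧ u i ≠ v i then 1 else 0

/-- The number of stars of `u` in `J`. -/
def st (J : Finset δ) (u : δ → Option Bool) : ℕ := ∑ i ∈ J, if u i = none then 1 else 0

theorem two_families [DecidableEq δ] (q : ℝ) (hq : 0 < q) (hq1 : q ≤ 1)
    (u : ι → δ → Option Bool) (v : κ → δ → Option Bool) (J : Finset δ) :
    ∀ (S : Finset ι) (T : Finset κ) (α : ι → ℝ) (β : κ → ℝ),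
      (∀ i ∈ S, 0 ≤ α i) → (∀ j ∈ T, 0 ≤ β j) →
      (∀ i ∈ S, ∀ i' ∈ S, i ≠ i' → 1 ≤ cf J (u i) (u i')) →
      (∀ j ∈ T, ∀ j' ∈ T, j ≠ j' → 1 ≤ cf J (v j) (v j')) →
      (∀ i ∈ S, ∀ j ∈ T, α i * β j ≤ q ^ cf J (u i) (v j)) →
      (∑ i ∈ S, ((1 + q) ^ 2 / 2) ^ st J (u i) * α i) *
        (∑ j ∈ T, ((1 + q) ^ 2 / 2) ^ st J (v j) * β j) ≤ (1 + q) ^ (2 * #J) := by
  induction J using Finset.induction_on with
  | empty =>
    intro S T α β hα hβ hS hT hST
    have hS1 : #S ≤ 1 := by
      rw [card_le_one]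
      intro i hi i' hi'
      by_contra h
      have := hS i hi i' hi' h
      simp [cf] at this
    have hT1 : #T ≤ 1 := by
      rw [card_le_one]
      intro i hi i' hi'
      by_contra h
      have := hT i hi i' hi' h
      simp [cf] at this
    rcases S.eq_empty_or_nonempty with h | ⟨i, hi⟩
    · rw [h, sum_empty, zero_mul]
      positivity
    rcases T.eq_empty_or_nonempty with h | ⟨j, hj⟩
    · rw [h, sum_empty, mul_zero]
      positivity
    have hSi : S = {i} := by
      rw [eq_singleton_iff_unique_mem]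
      exact ⟨hi, fun x hx => card_le_one.1 hS1 x hx i hi⟩
    have hTj : T = {j} := by
      rw [eq_singleton_iff_unique_mem]
      exact ⟨hj, fun x hx => card_le_one.1 hT1 x hx j hj⟩
    have := hST i hi j hj
    rw [hSi, hTj, sum_singleton, sum_singleton]
    simpa [cf, st] using this
  | insert a J ha IH =>
    intro S T α β hα hβ hS hT hST
    have hρ : 0 ≤ (1 + q) ^ 2 / 2 := by positivity
    set ρ : ℝ := (1 + q) ^ 2 / 2 with hρdef
    -- the parts of the sums
    let A : Bool → ℝ := fun x => ∑ i ∈ S, if u i a = some x then ρ ^ st J (u i) * α i else 0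
    let A' : ℝ := ∑ i ∈ S, if u i a = none then ρ ^ st J (u i) * α i else 0
    let B : Bool → ℝ := fun x => ∑ j ∈ T, if v j a = some x then ρ ^ st J (v j) * β j else 0
    let B' : ℝ := ∑ j ∈ T, if v j a = none then ρ ^ st J (v j) * β j else 0
    have hA : ∀ x, 0 ≤ A x := fun x => sum_nonneg fun i hi => by
      split_ifs
      · exact mul_nonneg (pow_nonneg hρ _) (hα i hi)
      · exact le_rfl
    have hA' : 0 ≤ A' := sum_nonneg fun i hi => by
      split_ifs
      · exact mul_nonneg (pow_nonneg hρ _) (hα i hi)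
      · exact le_rfl
    have hB : ∀ x, 0 ≤ B x := fun x => sum_nonneg fun i hi => by
      split_ifs
      · exact mul_nonneg (pow_nonneg hρ _) (hβ i hi)
      · exact le_rfl
    have hB' : 0 ≤ B' := sum_nonneg fun i hi => by
      split_ifs
      · exact mul_nonneg (pow_nonneg hρ _) (hβ i hi)
      · exact le_rfl
    have hcf : ∀ x y : δ → Option Bool, cf (insert a J) x y =
        (if x a ≠ none ∧ y a ≠ none ∧ x a ≠ y a then 1 else 0) + cf J x y := fun x y => by
      rw [cf, sum_insert ha, cf]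
    have hst : ∀ x : δ → Option Bool, st (insert a J) x =
        (if x a = none then 1 else 0) + st J x := fun x => by
      rw [st, sum_insert ha, st]
    have htot1 : ∑ i ∈ S, ρ ^ st (insert a J) (u i) * α i = A false + A true + ρ * A' := by
      simp only [A, A']
      rw [mul_sum, ← sum_add_distrib, ← sum_add_distrib]
      refine sum_congr rfl fun i _ => ?_
      rw [hst]
      rcases h : u i a with _ | _ | _ <;> simp [pow_succ, pow_add] <;> ring
    have htot2 : ∑ j ∈ T, ρ ^ st (insert a J) (v j) * β j = B false + B true + ρ * B' := by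
      simp only [B, B']
      rw [mul_sum, ← sum_add_distrib, ← sum_add_distrib]
      refine sum_congr rfl fun i _ => ?_
      rw [hst]
      rcases h : v i a with _ | _ | _ <;> simp [pow_succ, pow_add] <;> ring
    rw [htot1, htot2]
    -- same letter
    have same : ∀ x : Bool, (A x + A') * (B x + B') ≤ (1 + q) ^ (2 * #J) := by
      intro x
      have key := IH (S.filter fun i => u i a ≠ some (!x)) (T.filter fun j => v j a ≠ some (!x))
        α β (fun i hi => hα i (mem_filter.1 hi).1) (fun j hj => hβ j (mem_filter.1 hj).1) ?_ ?_ ?_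
      · have e1 : ∑ i ∈ S.filter (fun i => u i a ≠ some (!x)), ρ ^ st J (u i) * α i = A x + A' := by
          simp only [A, A']
          rw [sum_filter, ← sum_add_distrib]
          refine sum_congr rfl fun i _ => ?_
          rcases h : u i a with _ | _ | _ <;> cases x <;> simp
        have e2 : ∑ j ∈ T.filter (fun j => v j a ≠ some (!x)), ρ ^ st J (v j) * β j = B x + B' := by
          simp only [B, B']
          rw [sum_filter, ← sum_add_distrib]
          refine sum_congr rfl fun i _ => ?_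
          rcases h : v i a with _ | _ | _ <;> cases x <;> simp
        rw [e1, e2] at key
        exact key
      · intro i hi i' hi' hii
        rw [mem_filter] at hi hi'
        have h5 := hS i hi.1 i' hi'.1 hii
        rw [hcf] at h5
        have h6 : ¬ (u i a ≠ none ∧ u i' a ≠ none ∧ u i a ≠ u i' a) := notconf hi.2 hi'.2
        rwa [if_neg h6, zero_add] at h5
      · intro i hi i' hi' hii
        rw [mem_filter] at hi hi'
        have h5 := hT i hi.1 i' hi'.1 hii
        rw [hcf] at h5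
        have h6 : ¬ (v i a ≠ none ∧ v i' a ≠ none ∧ v i a ≠ v i' a) := notconf hi.2 hi'.2
        rwa [if_neg h6, zero_add] at h5
      · intro i hi j hj
        rw [mem_filter] at hi hj
        refine (hST i hi.1 j hj.1).trans ?_
        apply pow_le_pow_of_le_one hq.le hq1
        rw [hcf]
        exact Nat.le_add_left _ _
    -- different letters
    have diff : ∀ x : Bool, (A x + q * A') * (B (!x) + q * B') ≤ q * (1 + q) ^ (2 * #J) := by
      intro x
      have key := IH (S.filter fun i => u i a ≠ some (!x)) (T.filter fun j => v j a ≠ some x)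
        (fun i => if u i a = none then α i else α i / q)
        (fun j => if v j a = none then q * β j else β j) ?_ ?_ ?_ ?_ ?_
      · have e1 : ∑ i ∈ S.filter (fun i => u i a ≠ some (!x)),
            ρ ^ st J (u i) * (if u i a = none then α i else α i / q) = A x / q + A' := by
          simp only [A, A']
          rw [sum_filter, sum_div, ← sum_add_distrib]
          refine sum_congr rfl fun i _ => ?_
          rcases h : u i a with _ | _ | _ <;> cases x <;> simp <;> ring
        have e2 : ∑ j ∈ T.filter (fun j => v j a ≠ some x),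
            ρ ^ st J (v j) * (if v j a = none then q * β j else β j) = B (!x) + q * B' := by
          simp only [B, B']
          rw [sum_filter, mul_sum, ← sum_add_distrib]
          refine sum_congr rfl fun i _ => ?_
          rcases h : v i a with _ | _ | _ <;> cases x <;> simp <;> ring
        rw [e1, e2] at key
        have e3 : (A x + q * A') * (B (!x) + q * B') =
            q * ((A x / q + A') * (B (!x) + q * B')) := by
          field_simp
        rw [e3]
        exact mul_le_mul_of_nonneg_left key hq.le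
      · intro i hi
        have h5 := hα i (mem_filter.1 hi).1
        split_ifs
        · exact h5
        · exact div_nonneg h5 hq.le
      · intro i hi
        have h5 := hβ i (mem_filter.1 hi).1
        split_ifs
        · exact mul_nonneg hq.le h5
        · exact h5
      · intro i hi i' hi' hii
        rw [mem_filter] at hi hi'
        have h5 := hS i hi.1 i' hi'.1 hii
        rw [hcf] at h5
        have h6 : ¬ (u i a ≠ none ∧ u i' a ≠ none ∧ u i a ≠ u i' a) := notconf hi.2 hi'.2
        rwa [if_neg h6, zero_add] at h5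
      · intro i hi i' hi' hii
        rw [mem_filter] at hi hi'
        have h5 := hT i hi.1 i' hi'.1 hii
        rw [hcf] at h5
        have h6 : ¬ (v i a ≠ none ∧ v i' a ≠ none ∧ v i a ≠ v i' a) := notconf hi.2 hi'.2
        rwa [if_neg h6, zero_add] at h5
      · intro i hi j hj
        rw [mem_filter] at hi hj
        have h5 := hST i hi.1 j hj.1
        rw [hcf] at h5
        have h8 : 0 ≤ α i * β j := mul_nonneg (hα i hi.1) (hβ j hj.1)
        by_cases h6 : u i a = none
        · have h7 : ¬ (u i a ≠ none ∧ v j a ≠ none ∧ u i a ≠ v j a) := fun h => h.1 h6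
          rw [if_neg h7, zero_add] at h5
          rw [if_pos h6]
          split_ifs
          · calc α i * (q * β j) = q * (α i * β j) := by ring
              _ ≤ 1 * (α i * β j) := mul_le_mul_of_nonneg_right hq1 h8
              _ ≤ _ := by rw [one_mul]; exact h5
          · exact h5
        · rw [if_neg h6]
          by_cases h9 : v j a = none
          · have h7 : ¬ (u i a ≠ none ∧ v j a ≠ none ∧ u i a ≠ v j a) := fun h => h.2.1 h9
            rw [if_neg h7, zero_add] at h5
            rw [if_pos h9]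
            have e : α i / q * (q * β j) = α i * β j := by field_simp
            rw [e]
            exact h5
          · rw [if_neg h9]
            have h7 : u i a ≠ none ∧ v j a ≠ none ∧ u i a ≠ v j a :=
              ⟨h6, h9, isconf hi.2 hj.2 h6 h9⟩
            rw [if_pos h7, pow_add, pow_one] at h5
            rw [div_mul_eq_mul_div, div_le_iff₀ hq]
            linarith
    have hfin := step q (A false) (A true) A' (B false) (B true) B' ((1 + q) ^ (2 * #J)) hq hq1
      (hA _) (hA _) hA' (hB _) (hB _) hB' (by positivity) (same false) (same true)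
      (by simpa using diff false) (by simpa using diff true)
    refine hfin.trans (le_of_eq ?_)
    rw [card_insert_of_notMem ha]
    ring

end Pool.Agent.H.MP_602efc_co.Ent
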